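import Pool.Agent.Lib.MP_cb7904_an.Id.Defs

open Finset
open scoped BigOperators

namespace Pool.Agent.Lib.MP_cb7904_an.Id

open H16

lemma corr_sum_ind {α : Type} (s : Finset α) (P : α → Prop) [DecidablePred P] :
    ∑ a ∈ s, ind (P a) = (s.filter P).card := by
  rw [card_filter]
  push_cast
  exact sum_congr rfl fun a _ => by unfold ind; congr

lemma corr_pr_not {Ω : Type} [Fintype Ω] [Nonempty Ω] (E : Ω → Prop) :
    pr (fun ω => ¬E ω) = 1 - pr E := by
  have h : ∀ ω, ind (¬E ω) = 1 - ind (E ω) := fun ω => by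
    by_cases h : E ω
    · rw [ind_pos h, ind_neg (not_not.2 h), sub_self]
    · rw [ind_neg h, ind_pos h, sub_zero]
  simp only [pr, h, expect_sub_distrib, Fintype.expect_const]

lemma corr_pr_all {Ω : Type} [Fintype Ω] (E : Ω → Prop) (K : ℕ) :
    pr (fun a : Fin K → Ω => ∀ j, E (a j)) = pr E ^ K := by
  classical
  rw [pr, pr, expect_pow]
  refine expect_congr (by ext; simp) fun a _ => ?_
  by_cases h : ∀ j, E (a j)
  · rw [ind_pos h]
    exact (prod_eq_one fun j _ => ind_pos (h j)).symm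
  · rw [ind_neg h]
    obtain ⟨j, hj⟩ := not_forall.1 h
    exact (prod_eq_zero (mem_univ j) (ind_neg hj)).symm

lemma corr_kernel {G : Type} [AddCommGroup G] [Fintype G] {f g : G → ℚ} {K : ℕ} (hK : 0 < K)
    (hd : del f (Fin K) < 1 / 200) (hg : ∀ z v, Maj f (Fin K) z v → g z = v) (X Y : Finset G)
    (h1 : X.card ≤ Y.card) (h2 : 2 * K ≤ Y.card) :
    ∃ w : G → ℚ, (∃ y ∈ Y, w y ≠ 0) ∧ ∀ x ∈ X, ∑ y ∈ Y, w y * g (x + y) = 0 := by
  classical
  have hd0 : 0 ≤ del f (Fin K) := pr_nonneg _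
  have hd' : del f (Fin K) < 1 / 10 := hd.trans (by norm_num)
  have h1' : (X.card : ℝ) ≤ Y.card := by exact_mod_cast h1
  have h2' : 2 * (K : ℝ) ≤ Y.card := by exact_mod_cast h2
  have hK' : (0 : ℝ) < K := by exact_mod_cast hK
  obtain ⟨V, -, hV⟩ := exists_le_of_expect_le (s := (univ : Finset ((Fin K → G) × (Fin K → G))))
    (f := fun V => ∑ x ∈ X, ind (BadR f x V) + ∑ y ∈ Y, ind (BadC f y V))
    (a := 11 * del f (Fin K) * Y.card) univ_nonempty (by
      rw [expect_add_distrib, expect_sum_comm, expect_sum_comm]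
      have h3 := sum_le_sum fun x (_ : x ∈ X) => badR_le (f := f) (ι := Fin K) x
      have h4 := sum_le_sum fun x (_ : x ∈ Y) => badC_le (f := f) (ι := Fin K) x
      simp only [sum_const, nsmul_eq_mul, pr] at h3 h4
      nlinarith [mul_le_mul_of_nonneg_right h1' hd0])
  rw [corr_sum_ind, corr_sum_ind] at hV
  let M : Matrix (Fin K ⊕ (X.filter fun x => BadR f x V) ⊕ (Y.filter fun y => BadC f y V)) Y ℚ :=
    Matrix.of (Sum.elim (fun i y => f (V.1 i + y))
      (Sum.elim (fun x y => g (x + y)) fun c y => if (y : G) = c then 1 else 0))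
  obtain ⟨w, hw, hw0⟩ := (Submodule.ne_bot_iff _).mp (M.mulVecLin.ker_ne_bot_of_finrank_lt (by
    simp only [Module.finrank_fintype_fun_eq_card, Fintype.card_sum, Fintype.card_fin,
      Fintype.card_coe]
    have h5 : 11 * del f (Fin K) * Y.card ≤ 11 * (1 / 200) * Y.card := by gcongr
    exact_mod_cast (by push_cast; linarith : ((K + ((X.filter fun x => BadR f x V).card
      + (Y.filter fun y => BadC f y V).card) : ℕ) : ℝ) < Y.card)))
  replace hw : ∀ t, ∑ y, M t y * w y = 0 := fun t => congrFun (LinearMap.mem_ker.mp hw) t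
  refine ⟨fun y => if h : y ∈ Y then w ⟨y, h⟩ else 0, ?_, fun x hxX => ?_⟩
  · obtain ⟨y, hy⟩ := Function.ne_iff.1 hw0
    exact ⟨y, y.2, fun h => hy ((dif_pos y.2).symm.trans h)⟩
  rw [← sum_coe_sort]
  have e : ∀ y : Y, (if h : (y : G) ∈ Y then w ⟨y, h⟩ else 0) = w y := fun y => dif_pos y.2
  simp only [e]
  by_cases hx : BadR f x V
  · have h6 := hw (.inr (.inl ⟨x, mem_filter.2 ⟨hxX, hx⟩⟩))
    simp only [mul_comm (w _)]
    exact h6
  obtain ⟨l, hl⟩ := not_not.mp (not_or.mp hx).1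
  have h7 : ∀ y : Y, w y * g (x + y) = ∑ i, l i * (f (V.1 i + y) * w y) := fun y => by
    by_cases hy : BadC f y V
    · have h8 : ∑ y' : Y, (if (y' : G) = y then (1 : ℚ) else 0) * w y' = 0 :=
        hw (.inr (.inr ⟨y, mem_filter.2 ⟨y.2, hy⟩⟩))
      have : w y = 0 := by simpa [Subtype.coe_inj] using h8
      simp [this]
    · rw [hg _ _ (good_maj hd' hl hx hy), mul_sum]
      exact sum_congr rfl fun i _ => by ring
  simp only [h7]
  rw [sum_comm]
  refine sum_eq_zero fun i _ => ?_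
  rw [← mul_sum, show ∑ y : Y, f (V.1 i + y) * w y = 0 from hw (.inl i), mul_zero]

lemma corr_event {G : Type} [AddCommGroup G] [Fintype G] {f g : G → ℚ} {K : ℕ} (hK : 0 < K)
    (hd : del f (Fin K) < 1 / 10) (hg : ∀ z v, Maj f (Fin K) z v → g z = v) :
    pr (fun a : Fin K → G => ∃ j, f (a j) ≠ g (a j)) ≤ 12 * del f (Fin K) := by
  classical
  obtain ⟨j, hj⟩ : ∃ j : (Fin K → G) → Fin K, ∀ a : Fin K → G,
      (∃ j, f (a j) ≠ g (a j)) → f (a (j a)) ≠ g (a (j a)) :=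
    ⟨fun a => if h : ∃ j, f (a j) ≠ g (a j) then h.choose else ⟨0, hK⟩, fun a h => by
      simp only [dif_pos h]
      exact h.choose_spec⟩
  rw [← pr_hom (fun z : (Fin K → G) × (Fin K → G) × (Fin K → G) => z.1) (fun _ _ => rfl)
    fun z => ⟨(z, 0), rfl⟩]
  have h1 := pr_le_add
    (E := fun z : (Fin K → G) × (Fin K → G) × (Fin K → G) => ∃ j, f (z.1 j) ≠ g (z.1 j))
    (F := fun z => ¬Sp f 0 z.2.1 (Sum.elim z.2.2 z.1))
    (H := fun z => BadR f 0 z.2 ∨ BadC f (z.1 (j z.1)) z.2) fun z h => by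
      by_contra h1
      simp only [not_or, not_not] at h1
      obtain ⟨⟨l, hl⟩, h2, h3⟩ := h1
      have := hg _ _ (good_maj hd (fun j => hl (.inl j)) h2 h3)
      rw [zero_add] at this
      exact hj z.1 h (by simpa [this] using hl (.inr (j z.1)))
  have h2 := pr_le_add (E := fun z : (Fin K → G) × (Fin K → G) × (Fin K → G) =>
    BadR f 0 z.2 ∨ BadC f (z.1 (j z.1)) z.2) fun _ h => h
  rw [pr_hom (fun z : (Fin K → G) × (Fin K → G) × (Fin K → G) => (z.2.1, z.2.2, z.1))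
    (fun _ _ => rfl) (fun z => ⟨(z.2.2, z.1, z.2.1), rfl⟩)
    (fun z => ¬Sp f 0 z.1 (Sum.elim z.2.1 z.2.2)), del_eq] at h1
  rw [pr_hom (fun z : (Fin K → G) × (Fin K → G) × (Fin K → G) => z.2) (fun _ _ => rfl)
    (fun z => ⟨(0, z), rfl⟩) (BadR f 0),
    pr_prod fun (a : Fin K → G) V => BadC f (a (j a)) V] at h2
  have h3 := expect_le (s := (univ : Finset (Fin K → G))) univ_nonempty
    fun a _ => badC_le (f := f) (ι := Fin K) (a (j a))
  linarith [badR_le (f := f) (ι := Fin K) 0]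

theorem correct {G : Type} [AddCommGroup G] [Fintype G] {f : G → ℚ} {K : ℕ} (hK : 0 < K)
    (hd : del f (Fin K) < 1 / 200) :
    ∃ g : G → ℚ, (∀ X Y : Finset G, X.card ≤ Y.card → 2 * K ≤ Y.card →
      ∃ w : G → ℚ, (∃ y ∈ Y, w y ≠ 0) ∧ ∀ x ∈ X, ∑ y ∈ Y, w y * g (x + y) = 0) ∧
      K * pr (fun z => f z ≠ g z) ≤ 3 / 47 := by
  classical
  obtain ⟨g, hg⟩ : ∃ g : G → ℚ, ∀ z v, Maj f (Fin K) z v → g z = v :=
    ⟨fun z => if h : ∃ v, Maj f (Fin K) z v then h.choose else 0, fun z v h => by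
      simp only [dif_pos (⟨v, h⟩ : ∃ v, Maj f (Fin K) z v)]
      exact (Exists.choose_spec (⟨v, h⟩ : ∃ v, Maj f (Fin K) z v)).unique h⟩
  refine ⟨g, corr_kernel hK hd hg, ?_⟩
  have h1 := corr_event hK (hd.trans (by norm_num)) hg
  have h2 := corr_pr_not fun a : Fin K → G => ∃ j, f (a j) ≠ g (a j)
  have h3 := corr_pr_all (fun z => ¬f z ≠ g z) K
  have h4 := corr_pr_not fun z => f z ≠ g z
  have h5 := pr_nonneg fun z => f z ≠ g z
  have h6 := pr_nonneg fun z => ¬f z ≠ g z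
  simp only [not_exists] at h2
  rw [h3, h4] at h2
  rw [h4] at h6
  set η := pr fun z => f z ≠ g z
  have h7 : 1 + (K : ℝ) * η ≤ (1 + η) ^ K := one_add_mul_le_pow (by linarith) K
  have h8 : (1 - η) ^ K * (1 + η) ^ K ≤ 1 := by
    rw [← mul_pow]
    exact pow_le_one₀ (mul_nonneg h6 (by linarith)) (by nlinarith)
  have h9 : 47 / 50 ≤ (1 - η) ^ K := by linarith
  have h10 : 0 ≤ (K : ℝ) * η := mul_nonneg (Nat.cast_nonneg K) h5
  have h11 : 47 / 50 * (1 + (K : ℝ) * η) ≤ (1 - η) ^ K * (1 + η) ^ K :=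
    mul_le_mul h9 h7 (by linarith) (pow_nonneg h6 K)
  linarith

end Pool.Agent.Lib.MP_cb7904_an.Id
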