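import Pool.Agent.Lib.MP_cb7904_an.Id.Defs

open Finset
open scoped BigOperators

namespace Pool.Agent.Lib.MP_cb7904_an.Id

variable {N : ℕ} [NeZero N]

theorem costL_shift {d : ℕ} {a a' : ZMod N} (h : (d : ZMod N) ∣ a - a') (x : ZMod N) :
    cs d a x = cs d a' x := by
  have e : x - a' = x - a + (a - a') := by ring
  unfold cs
  rw [e]
  exact if_congr (dvd_add_left h).symm rfl rfl

theorem costL_split {u r : ℕ} (hc : Nat.Coprime u r) (a x : ZMod N) :
    cs (u * r) a x = cs u a x * cs r a x := by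
  have h : IsCoprime (u : ZMod N) (r : ZMod N) := hc.cast
  unfold cs
  rw [Nat.cast_mul]
  by_cases h1 : (u : ZMod N) ∣ x - a
  · by_cases h2 : (r : ZMod N) ∣ x - a
    · rw [if_pos h1, if_pos h2, if_pos (h.mul_dvd h1 h2), mul_one]
    · rw [if_neg h2, if_neg fun g => h2 (dvd_of_mul_left_dvd g), mul_zero]
  · rw [if_neg h1, if_neg fun g => h1 (dvd_of_mul_right_dvd g), zero_mul]

theorem costL_crt {d r : ℕ} (hc : Nat.Coprime d r) (a b : ZMod N) :
    ∃ c : ZMod N, ∀ x, cs d a x * cs r b x = cs (d * r) c x := by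
  obtain ⟨u, v, h⟩ : IsCoprime (d : ZMod N) (r : ZMod N) := hc.cast
  refine ⟨a + d * (u * (b - a)), fun x => ?_⟩
  rw [costL_split hc,
    costL_shift (a := a + (d : ZMod N) * (u * (b - a))) (a' := a) ⟨u * (b - a), by ring⟩,
    costL_shift (a := a + (d : ZMod N) * (u * (b - a))) (a' := b)
      ⟨v * (a - b), by linear_combination (b - a) * h⟩]

theorem Cost.zero (m : ℕ) : Cost m (fun _ : ZMod N => (0 : ℤ)) 0 := by
  exact ⟨Fin 0, inferInstance, fun _ => 1, fun _ => 1, fun _ => 0, by simp,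
    fun j => j.elim0, fun x => by simp⟩

theorem Cost.nonneg {m : ℕ} {h : ZMod N → ℤ} {T : ℝ} (H : Cost m h T) : 0 ≤ T := by
  obtain ⟨J, _, ε, d, a, h1, -, -⟩ := H
  exact (Nat.cast_nonneg _).trans h1

theorem Cost.mono {m m' : ℕ} {h : ZMod N → ℤ} {T T' : ℝ} (H : Cost m h T) (hm : m ∣ m')
    (hT : T ≤ T') : Cost m' h T' := by
  obtain ⟨J, i, ε, d, a, h1, h2, h3⟩ := H
  exact ⟨J, i, ε, d, a, h1.trans hT, fun j => ⟨(h2 j).1, (h2 j).2.trans hm⟩, h3⟩

theorem Cost.congr {m : ℕ} {h h' : ZMod N → ℤ} {T : ℝ} (H : Cost m h T) (e : ∀ x, h' x = h x) :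
    Cost m h' T := by
  obtain ⟨J, i, ε, d, a, h1, h2, h3⟩ := H
  exact ⟨J, i, ε, d, a, h1, h2, fun x => (e x).trans (h3 x)⟩

theorem Cost.add {m : ℕ} {h h' : ZMod N → ℤ} {T T' : ℝ} (H : Cost m h T) (H' : Cost m h' T') :
    Cost m (fun x => h x + h' x) (T + T') := by
  obtain ⟨J, _, ε, d, a, h1, h2, h3⟩ := H
  obtain ⟨J', _, ε', d', a', g1, g2, g3⟩ := H'
  refine ⟨J ⊕ J', inferInstance, Sum.elim ε ε', Sum.elim d d', Sum.elim a a', ?_, ?_, fun x => ?_⟩
  · rw [Fintype.card_sum, Nat.cast_add]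
    exact add_le_add h1 g1
  · rintro (j | j)
    · exact h2 j
    · exact g2 j
  · rw [Fintype.sum_sum_type]
    simp only [Sum.elim_inl, Sum.elim_inr, h3 x, g3 x]

theorem Cost.sum {ι : Type} {m : ℕ} (s : Finset ι) (h : ι → ZMod N → ℤ) (T : ι → ℝ)
    (H : ∀ i ∈ s, Cost m (h i) (T i)) : Cost m (fun x => ∑ i ∈ s, h i x) (∑ i ∈ s, T i) := by
  classical
  induction s using Finset.induction_on with
  | empty => simpa using Cost.zero m
  | insert i s hi ih =>
    rw [sum_insert hi]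
    exact ((H i (mem_insert_self _ _)).add
      (ih fun j hj => H j (mem_insert_of_mem hj))).congr fun x => sum_insert hi

theorem Cost.single {m d : ℕ} (hd : d ∣ m) (c : ℤ) (a : ZMod N) :
    Cost m (fun x => c * cs d a x) |(c : ℝ)| := by
  refine ⟨Fin c.natAbs, inferInstance, fun _ => if 0 ≤ c then 1 else -1, fun _ => d, fun _ => a,
    ?_, fun _ => ⟨by split_ifs <;> simp, hd⟩, fun x => ?_⟩
  · rw [Fintype.card_fin, Nat.cast_natAbs, Int.cast_abs]
  · rw [sum_const, card_univ, Fintype.card_fin, nsmul_eq_mul, ← mul_assoc, Nat.cast_natAbs,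
      Int.cast_id]
    split_ifs with h0
    · rw [abs_of_nonneg h0, mul_one]
    · rw [abs_of_neg (not_le.1 h0)]
      ring

/-- The intersection of cosets with coprime moduli is a coset. -/
theorem Cost.mul_cs {m r : ℕ} (hc : Nat.Coprime m r) {h : ZMod N → ℤ} {T : ℝ} (H : Cost m h T)
    (b : ZMod N) : Cost (m * r) (fun x => h x * cs r b x) T := by
  obtain ⟨J, i, ε, d, a, h1, h2, h3⟩ := H
  choose c hc' using fun j => costL_crt (Nat.Coprime.coprime_dvd_left (h2 j).2 hc) (a j) b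
  refine ⟨J, i, ε, fun j => d j * r, c, h1,
    fun j => ⟨(h2 j).1, Nat.mul_dvd_mul_right (h2 j).2 r⟩, fun x => ?_⟩
  simp only [h3 x, sum_mul, mul_assoc, hc']

theorem cs_split {u r : ℕ} (hc : Nat.Coprime u r) (a x : ZMod N) :
    cs (u * r) a x = cs u a x * cs r a x := by
  exact costL_split hc a x

theorem cs_mod {r : ℕ} (a x : ZMod N) : cs r ((a.val % r : ℕ) : ZMod N) x = cs r a x := by
  refine costL_shift ⟨-((a.val / r : ℕ) : ZMod N), ?_⟩ x
  have h := Nat.mod_add_div a.val r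
  have h' : ((a.val % r : ℕ) : ZMod N) + (r : ZMod N) * ((a.val / r : ℕ) : ZMod N) = a := by
    rw [← Nat.cast_mul, ← Nat.cast_add, h, ZMod.natCast_zmod_val]
  linear_combination h'

theorem Cost.least {m : ℕ} {h : ZMod N → ℤ} {T : ℝ} (H : Cost m h T) :
    ∃ n : ℕ, Cost m h n ∧ ∀ T' : ℝ, Cost m h T' → (n : ℝ) ≤ T' := by
  classical
  have key : ∀ T' : ℝ, Cost m h T' → ∃ n : ℕ, (n : ℝ) ≤ T' ∧ Cost m h n := by
    rintro T' ⟨J, i, ε, d, a, h1, h2, h3⟩
    exact ⟨_, h1, J, i, ε, d, a, le_rfl, h2, h3⟩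
  have ex : ∃ n : ℕ, Cost m h n := (key T H).imp fun n hn => hn.2
  refine ⟨Nat.find ex, Nat.find_spec ex, fun T' hT' => ?_⟩
  obtain ⟨n, h1, h2⟩ := key T' hT'
  exact (Nat.cast_le.2 (Nat.find_min' ex h2)).trans h1

open Classical in
theorem Cost.final {m : ℕ} {h : ZMod N → ℤ} {B : ℝ} (H : Cost m h B) :
    ∃ (T : ℕ) (ε : Fin T → ℤ) (d a : Fin T → ZMod N), (T : ℝ) ≤ B ∧
      (∀ j, ε j = 1 ∨ ε j = -1) ∧ ∀ x, h x = ∑ j, if d j ∣ x - a j then ε j else 0 := by
  obtain ⟨J, i, ε, d, a, h1, h2, h3⟩ := H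
  have e := (Fintype.equivFin J).symm
  refine ⟨Fintype.card J, fun j => ε (e j), fun j => (d (e j) : ZMod N), fun j => a (e j), h1,
    fun j => (h2 _).1, fun x => ?_⟩
  rw [h3 x, ← e.sum_comp]
  refine sum_congr rfl fun j _ => ?_
  unfold cs
  split_ifs <;> simp

end Pool.Agent.Lib.MP_cb7904_an.Id
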