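import Pool.Agent.Lib.MP_cb7904_an.H16Main

open Finset
open scoped BigOperators

namespace Pool.Agent.Lib.MP_cb7904_an.Id

variable {N : ℕ} [NeZero N]

/-- The standard additive character. -/
noncomputable abbrev ch : AddChar (ZMod N) ℂ := ZMod.stdAddChar

/-- Fourier coefficients. -/
noncomputable def ft (u : ZMod N → ℂ) (r : ZMod N) : ℂ :=
  (1 / N : ℂ) * ∑ x, u x * ch (-(r * x))

open Classical in
/-- The spectrum. -/
noncomputable def spec (u : ZMod N → ℂ) : Finset (ZMod N) := univ.filter fun r => ft u r ≠ 0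

/-- An integer valued function seen as complex valued. -/
def cz (h : ZMod N → ℤ) : ZMod N → ℂ := fun x => h x

/-- A rational valued function seen as complex valued. -/
def cq (g : ZMod N → ℚ) : ZMod N → ℂ := fun x => g x

/-- The size of the spectrum. -/
noncomputable def sp (h : ZMod N → ℤ) : ℕ := (spec (cz h)).card

/-- The mean square. -/
noncomputable def n2 (h : ZMod N → ℤ) : ℝ := (∑ x, (h x : ℝ) ^ 2) / N

/-- The sum of the absolute values of the Fourier coefficients. -/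
noncomputable def nrm (h : ZMod N → ℤ) : ℝ := ∑ r, ‖ft (cz h) r‖

/-- The density of the set where two functions differ. -/
noncomputable def dif (f g : ZMod N → ℤ) : ℝ := ((univ.filter fun x => f x ≠ g x).card : ℝ) / N

open Classical in
/-- The indicator of the coset of `a` modulo the subgroup generated by `d`. -/
noncomputable def cs (d : ℕ) (a x : ZMod N) : ℤ := if (d : ZMod N) ∣ x - a then 1 else 0

/-- `h` is a signed sum of at most `T` cosets whose moduli divide `m`. -/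
def Cost (m : ℕ) (h : ZMod N → ℤ) (T : ℝ) : Prop :=
  ∃ (J : Type) (_ : Fintype J) (ε : J → ℤ) (d : J → ℕ) (a : J → ZMod N),
    (Fintype.card J : ℝ) ≤ T ∧ (∀ j, (ε j = 1 ∨ ε j = -1) ∧ d j ∣ m) ∧
      ∀ x, h x = ∑ j, ε j * cs (d j) (a j) x

/-- Periodicity modulo `m`. -/
def Per {α : Type} (m : ℕ) (u : ZMod N → α) : Prop := ∀ x t : ZMod N, u (x + m * t) = u x

/-- The loss for moduli whose primes are at most `y`. -/
noncomputable def Th (y : ℕ) : ℝ := (2 * Real.exp 5 * Real.log y) ^ 3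

/-- The scales. -/
def Kt (k : ℕ) : ℕ := 400 * 4 ^ (k + 1)

/-- A bad scale. -/
def Bad (F : ZMod N → ℤ) (k : ℕ) : Prop :=
  1 / 200 ≤ H16.del (fun x => (F x : ℚ)) (Fin (Kt k - 1))

/-- A decomposition along cosets whose moduli have only large prime factors. -/
structure Dec (N1 N2 T : ℕ) (S : Finset (ℕ × ℕ)) (φ : ℕ × ℕ → ZMod N → ℤ) (h : ZMod N → ℤ) :
    Prop where
  cop : Nat.Coprime N1 N2
  dvd : N2 ∣ N
  mem : ∀ R ∈ S, R.1 ∣ N2 ∧ R.2 < R.1
  card : S.card ≤ T
  big : ∀ p : ℕ, p.Prime → p ∣ N2 → 4 * T ^ 2 < p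
  per : ∀ R, Per N1 (φ R)
  eq : ∀ x, h x = ∑ R ∈ S, φ R x * cs R.1 (R.2 : ZMod N) x

lemma mem_spec {u : ZMod N → ℂ} {r : ZMod N} : r ∈ spec u ↔ ft u r ≠ 0 := by simp [spec]

omit [NeZero N] in
lemma cz_eq_cq (h : ZMod N → ℤ) : cz h = cq fun x => (h x : ℚ) := by
  funext x; simp [cz, cq]

lemma n2_nonneg (h : ZMod N → ℤ) : 0 ≤ n2 h := by unfold n2; positivity

lemma nrm_nonneg (h : ZMod N → ℤ) : 0 ≤ nrm h := sum_nonneg fun _ _ => norm_nonneg _

lemma dif_nonneg (f g : ZMod N → ℤ) : 0 ≤ dif f g := by unfold dif; positivity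

omit [NeZero N] in
lemma Per.of_dvd {α : Type} {d m : ℕ} {u : ZMod N → α} (h : Per d u) (hd : d ∣ m) : Per m u := by
  obtain ⟨c, rfl⟩ := hd
  intro x t
  rw [Nat.cast_mul, mul_assoc]
  exact h x _

lemma cs_per (d : ℕ) (a : ZMod N) : Per d (cs d a) := by
  intro x t
  have e : x + d * t - a = x - a + d * t := by ring
  unfold cs
  rw [e]
  exact if_congr (dvd_add_left (dvd_mul_right _ _)) rfl rfl

lemma dvd_iff_val {d : ℕ} (hd : d ∣ N) (y : ZMod N) : (d : ZMod N) ∣ y ↔ d ∣ y.val := by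
  constructor
  · rintro ⟨t, rfl⟩
    rw [ZMod.val_mul, Nat.dvd_mod_iff hd, ZMod.val_natCast]
    exact Dvd.dvd.mul_right ((Nat.dvd_mod_iff hd).2 dvd_rfl) _
  · rintro ⟨k, hk⟩
    exact ⟨k, by rw [← ZMod.natCast_zmod_val y, hk, Nat.cast_mul]⟩

lemma ch_sum (w : ZMod N) : ∑ k : ZMod N, ch (k * w) = if w = 0 then (N : ℂ) else 0 := by
  have := AddChar.sum_mulShift w (ZMod.isPrimitive_stdAddChar N)
  simpa only [ZMod.card, Nat.cast_ite, Nat.cast_zero] using this

lemma ch_eq_one {w : ZMod N} : ch w = 1 ↔ w = 0 :=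
  ⟨fun h => ZMod.injective_stdAddChar (h.trans (AddChar.map_zero_eq_one _).symm),
    fun h => by rw [h, AddChar.map_zero_eq_one]⟩

end Pool.Agent.Lib.MP_cb7904_an.Id
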