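import Pool.Agent.Lib.MP_cb7904_an.Id.Defs

open Finset
open scoped BigOperators

namespace Pool.Agent.Lib.MP_cb7904_an.Id

variable {N : ℕ} [NeZero N]

lemma four_ne : (N : ℂ) ≠ 0 := Nat.cast_ne_zero.mpr (NeZero.ne N)

lemma four_norm (w : ZMod N) : ‖ch w‖ = 1 := AddChar.norm_apply _ _

theorem inversion (u : ZMod N → ℂ) (x : ZMod N) : u x = ∑ r, ft u r * ch (r * x) := by
  simp only [ft, mul_assoc, sum_mul, ← mul_sum, ← AddChar.map_add_eq_mul]
  rw [sum_comm]
  have b3 : ∀ y, ∑ r : ZMod N, u y * ch (-(r * y) + r * x) =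
      if x = y then u y * (N : ℂ) else 0 := fun y => by
    have h := ch_sum (x - y)
    simp only [sub_eq_zero] at h
    rw [← mul_sum, ← mul_ite_zero, ← h]
    congr 1
    exact sum_congr rfl fun r _ => by congr 1; ring
  simp only [b3, sum_ite_eq, mem_univ, if_true]
  have := four_ne (N := N)
  field_simp

theorem inversion_spec (u : ZMod N → ℂ) (x : ZMod N) :
    u x = ∑ r ∈ spec u, ft u r * ch (r * x) := by
  rw [inversion u x]
  refine (sum_subset (subset_univ _) fun r _ hr => ?_).symm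
  rw [mem_spec, not_not] at hr
  rw [hr, zero_mul]

theorem parseval (u : ZMod N → ℂ) : ∑ r, ‖ft u r‖ ^ 2 = (∑ x, ‖u x‖ ^ 2) / N := by
  have h1 : ∀ r, (starRingEnd ℂ) (ft u r) =
      (1 / N : ℂ) * ∑ x, (starRingEnd ℂ) (u x) * ch (r * x) := by
    intro r
    simp only [ft, map_mul, map_sum, map_div₀, map_one, map_natCast, ← AddChar.map_neg_eq_conj,
      neg_neg]
  apply Complex.ofReal_injective
  push_cast
  simp only [← Complex.conj_mul']
  simp only [h1]
  calc ∑ r, ((1 / N : ℂ) * ∑ x, (starRingEnd ℂ) (u x) * ch (r * x)) * ft u r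
      = (1 / N : ℂ) * ∑ x, (starRingEnd ℂ) (u x) * ∑ r, ft u r * ch (r * x) := by
        simp only [mul_sum, sum_mul]
        rw [sum_comm]
        exact sum_congr rfl fun x _ => sum_congr rfl fun r _ => by ring
    _ = _ := by
        simp only [← inversion]
        ring

theorem sup_le (h : ZMod N → ℤ) (x : ZMod N) : (h x : ℝ) ^ 2 ≤ sp h * n2 h := by
  have h1 : |(h x : ℝ)| ≤ ∑ r ∈ spec (cz h), ‖ft (cz h) r‖ := by
    have h2 : |(h x : ℝ)| = ‖cz h x‖ := by simp [cz]
    rw [h2, inversion_spec (cz h) x]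
    refine (norm_sum_le _ _).trans (le_of_eq (sum_congr rfl fun r _ => ?_))
    rw [norm_mul, four_norm, mul_one]
  have h3 : ∑ r ∈ spec (cz h), ‖ft (cz h) r‖ ^ 2 ≤ n2 h := by
    refine (sum_le_sum_of_subset_of_nonneg (subset_univ _) fun _ _ _ => sq_nonneg _).trans
      (le_of_eq ?_)
    rw [parseval, n2]
    simp [cz]
  calc (h x : ℝ) ^ 2 = |(h x : ℝ)| ^ 2 := (sq_abs _).symm
    _ ≤ (∑ r ∈ spec (cz h), ‖ft (cz h) r‖) ^ 2 := by gcongr
    _ ≤ (spec (cz h)).card * ∑ r ∈ spec (cz h), ‖ft (cz h) r‖ ^ 2 := sq_sum_le_card_mul_sum_sq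
    _ ≤ sp h * n2 h := mul_le_mul_of_nonneg_left h3 (Nat.cast_nonneg _)

theorem abs_le_nrm (h : ZMod N → ℤ) (x : ZMod N) : |(h x : ℝ)| ≤ nrm h := by
  have h2 : |(h x : ℝ)| = ‖cz h x‖ := by simp [cz]
  rw [h2, inversion (cz h) x]
  refine (norm_sum_le _ _).trans (le_of_eq (sum_congr rfl fun r _ => ?_))
  rw [norm_mul, four_norm, mul_one]

theorem sp_zero : sp (fun _ : ZMod N => (0 : ℤ)) = 0 := by
  refine card_eq_zero.2 (eq_empty_of_forall_notMem fun r hr => mem_spec.1 hr ?_)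
  simp [ft, cz]

theorem sp_sub (g g' : ZMod N → ℤ) : sp (fun x => g' x - g x) ≤ sp g' + sp g := by
  refine le_trans (card_le_card fun r hr => ?_) (card_union_le (spec (cz g')) (spec (cz g)))
  by_contra hc
  rw [mem_union, mem_spec, mem_spec, not_or, not_not, not_not] at hc
  refine mem_spec.1 hr ?_
  have h1 : ft (cz fun x => g' x - g x) r = ft (cz g') r - ft (cz g) r := by
    simp only [ft, cz, Int.cast_sub, sub_mul, sum_sub_distrib, mul_sub]
  rw [h1, hc.1, hc.2, sub_zero]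

theorem ft_sum {ι : Type} (s : Finset ι) (u : ι → ZMod N → ℂ) (r : ZMod N) :
    ft (fun x => ∑ i ∈ s, u i x) r = ∑ i ∈ s, ft (u i) r := by
  simp only [ft, sum_mul]
  rw [sum_comm, mul_sum]

theorem ft_per {m : ℕ} {u : ZMod N → ℂ} (h : Per m u) {r : ZMod N} (hr : ft u r ≠ 0) :
    (m : ZMod N) * r = 0 := by
  have h1 : ft u r = ch (-((m : ZMod N) * r)) * ft u r := by
    unfold ft
    rw [mul_left_comm]
    congr 1
    rw [mul_sum]
    refine (Equiv.sum_comp (Equiv.addRight ((m : ZMod N) * 1)) _).symm.trans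
      (sum_congr rfl fun x _ => ?_)
    rw [Equiv.coe_addRight, h x 1, mul_left_comm, ← AddChar.map_add_eq_mul]
    congr 2
    ring
  have h2 : ch (-((m : ZMod N) * r)) = 1 := mul_right_cancel₀ hr (h1.symm.trans (one_mul _).symm)
  exact neg_eq_zero.1 (ch_eq_one.1 h2)

lemma four_cnt {d c : ℕ} (hd : N = d * c) :
    (univ.filter fun x : ZMod N => d ∣ x.val).card = c := by
  have hd0 : 0 < d := Nat.pos_of_ne_zero fun h => NeZero.ne N (by rw [hd, h, zero_mul])
  conv_rhs => rw [← card_range c]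
  refine card_nbij' (fun x => x.val / d) (fun k => ((d * k : ℕ) : ZMod N)) (fun x _ => ?_)
    (fun k hk => ?_) (fun x hx => ?_) fun k hk => ?_
  · refine mem_coe.2 (mem_range.2 (Nat.div_lt_of_lt_mul ?_))
    rw [← hd]
    exact x.val_lt
  · have h1 : d * k < N := by
      rw [hd]
      exact Nat.mul_lt_mul_of_pos_left (mem_range.1 (mem_coe.1 hk)) hd0
    refine mem_coe.2 (mem_filter.2 ⟨mem_univ _, ?_⟩)
    rw [ZMod.val_natCast_of_lt h1]
    exact dvd_mul_right _ _
  · show ((d * (x.val / d) : ℕ) : ZMod N) = x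
    rw [Nat.mul_div_cancel' (mem_filter.1 (mem_coe.1 hx)).2, ZMod.natCast_zmod_val]
  · have h1 : d * k < N := by
      rw [hd]
      exact Nat.mul_lt_mul_of_pos_left (mem_range.1 (mem_coe.1 hk)) hd0
    show (((d * k : ℕ) : ZMod N)).val / d = k
    rw [ZMod.val_natCast_of_lt h1, Nat.mul_div_cancel_left _ hd0]

theorem card_ann {d : ℕ} (hd : d ∣ N) :
    (univ.filter fun r : ZMod N => (d : ZMod N) * r = 0).card = d := by
  obtain ⟨c, hc⟩ := hd
  have hd0 : 0 < d := Nat.pos_of_ne_zero fun h => NeZero.ne N (by rw [hc, h, zero_mul])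
  refine Eq.trans ?_ (four_cnt (hc.trans (mul_comm d c)))
  congr 1
  refine filter_congr fun r _ => ?_
  conv_lhs => rw [← ZMod.natCast_zmod_val r, ← Nat.cast_mul, ZMod.natCast_eq_zero_iff]
  exact (Iff.of_eq (congrArg (· ∣ d * r.val) hc)).trans (Nat.mul_dvd_mul_iff_left hd0)

lemma four_sum_cs {d : ℕ} (hd : d ∣ N) (b : ZMod N) : (d : ℤ) * ∑ x, cs d b x = N := by
  obtain ⟨c, hc⟩ := id hd
  have h1 : ∑ x, cs d b x = c := by
    rw [← Equiv.sum_comp (Equiv.addRight b), ← four_cnt hc, card_filter]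
    push_cast
    refine sum_congr rfl fun x _ => ?_
    rw [Equiv.coe_addRight, cs, add_sub_cancel_right]
    exact if_congr (dvd_iff_val hd x) rfl rfl
  rw [h1]
  exact_mod_cast hc.symm

theorem ft_cs {d : ℕ} (hd : d ∣ N) (b r : ZMod N) :
    ft (cz (cs d b)) r = if (d : ZMod N) * r = 0 then ch (-(r * b)) / d else 0 := by
  split_ifs with h
  · have h1 : ∀ x, cz (cs d b) x * ch (-(r * x)) = (cs d b x : ℂ) * ch (-(r * b)) := by
      intro x
      unfold cz cs
      split_ifs with h2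
      · obtain ⟨t, ht⟩ := h2
        congr 2
        linear_combination (-r) * ht - t * h
      · simp
    have h2 : (d : ℂ) * ∑ x, (cs d b x : ℂ) = N := by exact_mod_cast four_sum_cs hd b
    have h3 := four_ne (N := N)
    have h4 : (d : ℂ) ≠ 0 := fun h5 => h3 (by rw [← h2, h5, zero_mul])
    simp only [ft, h1, ← sum_mul]
    field_simp
    linear_combination ch (-(r * b)) * h2
  · by_contra hc
    exact h (ft_per (u := cz (cs d b)) (fun x t => congrArg Int.cast (cs_per d b x t)) hc)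

lemma four_mul {K : Type} [CommRing K] {N1 N2 : ℕ} (hc : Nat.Coprime N1 N2) {u v : ZMod N → K}
    (hu : Per N1 u) (hv : Per N2 v) : (N : K) * ∑ x, u x * v x = (∑ x, u x) * ∑ x, v x := by
  obtain ⟨a, b, hab⟩ : IsCoprime (N1 : ZMod N) (N2 : ZMod N) := Nat.Coprime.cast hc
  have h1 : ∀ w, ∑ x, u x * v (x + w) = ∑ x, u x * v x := by
    intro w
    rw [← Equiv.sum_comp (Equiv.addRight ((N1 : ZMod N) * (a * w))) fun x => u x * v x]
    refine sum_congr rfl fun x _ => ?_
    rw [Equiv.coe_addRight, hu x, ← hv (x + N1 * (a * w)) (b * w)]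
    congr 2
    linear_combination (-w) * hab
  calc (N : K) * ∑ x, u x * v x = ∑ w, ∑ x, u x * v (x + w) := by
        simp only [h1, sum_const, card_univ, ZMod.card, nsmul_eq_mul]
    _ = _ := by
        rw [sum_comm, sum_mul]
        refine sum_congr rfl fun x _ => ?_
        rw [← mul_sum]
        congr 1
        exact Equiv.sum_comp (Equiv.addLeft x) v

lemma four_per {m : ℕ} {u : ZMod N → ℂ} (hu : Per m u) {r : ZMod N} (h : (m : ZMod N) * r = 0) :
    Per m fun x => u x * ch (-(r * x)) := by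
  intro x t
  show u (x + (m : ZMod N) * t) * ch (-(r * (x + (m : ZMod N) * t))) = u x * ch (-(r * x))
  rw [hu x t]
  congr 2
  linear_combination (-t) * h

theorem ft_mul {N1 N2 : ℕ} (hc : Nat.Coprime N1 N2) {u v : ZMod N → ℂ} (hu : Per N1 u)
    (hv : Per N2 v) {r1 r2 : ZMod N} (h1 : (N1 : ZMod N) * r1 = 0) (h2 : (N2 : ZMod N) * r2 = 0) :
    ft (fun x => u x * v x) (r1 + r2) = ft u r1 * ft v r2 := by
  have h3 := four_mul hc (four_per hu h1) (four_per hv h2)
  have h4 : ∀ x, u x * v x * ch (-((r1 + r2) * x)) =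
      u x * ch (-(r1 * x)) * (v x * ch (-(r2 * x))) := by
    intro x
    rw [mul_mul_mul_comm, ← AddChar.map_add_eq_mul]
    congr 2
    ring
  have h5 := four_ne (N := N)
  simp only [ft, h4]
  rw [mul_mul_mul_comm, ← h3]
  field_simp

theorem mean_mul {N1 N2 : ℕ} (hc : Nat.Coprime N1 N2) {u v : ZMod N → ℝ} (hu : Per N1 u)
    (hv : Per N2 v) : (∑ x, u x * v x) / N = (∑ x, u x) / N * ((∑ x, v x) / N) := by
  have h5 : (N : ℝ) ≠ 0 := Nat.cast_ne_zero.mpr (NeZero.ne N)
  rw [div_mul_div_comm, ← four_mul hc hu hv]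
  field_simp

theorem mean_cs {d : ℕ} (hd : d ∣ N) (b : ZMod N) : (∑ x, (cs d b x : ℝ)) / N = 1 / d := by
  have h2 : (d : ℝ) * ∑ x, (cs d b x : ℝ) = N := by exact_mod_cast four_sum_cs hd b
  have h3 : (N : ℝ) ≠ 0 := Nat.cast_ne_zero.mpr (NeZero.ne N)
  have h4 : (d : ℝ) ≠ 0 := fun h5 => h3 (by rw [← h2, h5, zero_mul])
  field_simp
  linear_combination h2

end Pool.Agent.Lib.MP_cb7904_an.Id
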