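import Pool.Agent.Lib.MP_cb7904_an.Id.Four

open Finset
open scoped BigOperators

namespace Pool.Agent.Lib.MP_cb7904_an.Id

variable {N : ℕ} [NeZero N]

lemma gal_prim (r : ZMod N) : IsPrimitiveRoot (ch r) (addOrderOf r) :=
  ⟨by rw [← AddChar.map_nsmul_eq_pow, addOrderOf_nsmul_eq_zero, AddChar.map_zero_eq_one],
    fun l hl => addOrderOf_dvd_of_nsmul_eq_zero
      (ch_eq_one.1 (by rw [AddChar.map_nsmul_eq_pow, hl]))⟩

lemma gal_aeval (g : ZMod N → ℚ) (r : ZMod N) :
    Polynomial.aeval (ch (-r)) (∑ x : ZMod N, Polynomial.C (g x) * Polynomial.X ^ x.val) =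
      ∑ x, cq g x * ch (-(r * x)) := by
  rw [map_sum]
  refine sum_congr rfl fun x _ => ?_
  rw [map_mul, map_pow, Polynomial.aeval_C, Polynomial.aeval_X, ← AddChar.map_nsmul_eq_pow,
    nsmul_eq_mul, ZMod.natCast_zmod_val, show x * -r = -(r * x) by ring]
  rfl

theorem gal (g : ZMod N → ℚ) {r r' : ZMod N} (ho : addOrderOf r = addOrderOf r')
    (h : ft (cq g) r = 0) : ft (cq g) r' = 0 := by
  have hN : (1 / N : ℂ) ≠ 0 := one_div_ne_zero (Nat.cast_ne_zero.2 (NeZero.ne N))
  have h1 := minpoly.dvd ℚ _ ((gal_aeval g r).trans ((mul_eq_zero.1 h).resolve_left hN))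
  have h2 := Polynomial.cyclotomic_eq_minpoly_rat (gal_prim (-r)) (addOrderOf_pos _)
  have h3 := Polynomial.cyclotomic_eq_minpoly_rat (gal_prim (-r')) (addOrderOf_pos _)
  rw [addOrderOf_neg] at h2 h3
  rw [← h2, ho, h3] at h1
  obtain ⟨c, hc⟩ := h1
  rw [ft, ← gal_aeval, hc, map_mul, minpoly.aeval, zero_mul, mul_zero]

theorem tot_le (g : ZMod N → ℚ) :
    ∑ d ∈ (spec (cq g)).image addOrderOf, Nat.totient d ≤ (spec (cq g)).card := by
  rw [card_eq_sum_card_image addOrderOf (spec (cq g))]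
  refine sum_le_sum fun d hd => ?_
  obtain ⟨r, hr, rfl⟩ := mem_image.1 hd
  rw [← IsAddCyclic.card_addOrderOf_eq_totient (α := ZMod N) addOrderOf_dvd_card]
  refine card_le_card fun r' hr' => ?_
  have h1 := (mem_filter.1 hr').2
  exact mem_filter.2 ⟨mem_spec.2 fun h => mem_spec.1 hr (gal g h1 h), h1⟩

lemma gal_rec (g : ZMod N → ℚ) : ∃ (s : ℕ) (c : ℕ → ℤ), s ≤ (spec (cq g)).card ∧
    ∀ x, g (x + (s : ℕ)) = -∑ i ∈ range s, c i * g (x + (i : ℕ)) := by
  obtain ⟨P, hP⟩ : ∃ P : Polynomial ℤ,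
      P = ∏ d ∈ (spec (cq g)).image addOrderOf, Polynomial.cyclotomic d ℤ := ⟨_, rfl⟩
  have hm : P.Monic := hP ▸ Polynomial.monic_prod_of_monic _ _ fun d _ =>
    Polynomial.cyclotomic.monic d ℤ
  have hd : P.natDegree ≤ (spec (cq g)).card := by
    rw [hP, Polynomial.natDegree_prod_of_monic _ _ fun d _ => Polynomial.cyclotomic.monic d ℤ]
    simpa only [Polynomial.natDegree_cyclotomic] using tot_le g
  have h0 : ∀ r ∈ spec (cq g), ∑ i ∈ range (P.natDegree + 1), (P.coeff i : ℂ) * ch r ^ i = 0 := by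
    intro r hr
    have h1 : Polynomial.aeval (ch r) P = 0 := by
      rw [hP, map_prod]
      refine prod_eq_zero (mem_image_of_mem addOrderOf hr) ?_
      rw [Polynomial.aeval_def, Polynomial.eval₂_eq_eval_map, Polynomial.map_cyclotomic]
      exact (gal_prim r).isRoot_cyclotomic (addOrderOf_pos r)
    rw [Polynomial.aeval_eq_sum_range] at h1
    simpa only [zsmul_eq_mul] using h1
  refine ⟨P.natDegree, P.coeff, hd, fun x => ?_⟩
  have h2 : ∑ i ∈ range (P.natDegree + 1), (P.coeff i : ℂ) * cq g (x + (i : ℕ)) = 0 := by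
    calc _ = ∑ i ∈ range (P.natDegree + 1), ∑ r ∈ spec (cq g),
          ft (cq g) r * ch (r * x) * ((P.coeff i : ℂ) * ch r ^ i) := by
          refine sum_congr rfl fun i _ => ?_
          rw [inversion_spec (cq g) (x + (i : ℕ)), mul_sum]
          refine sum_congr rfl fun r _ => ?_
          rw [mul_add, AddChar.map_add_eq_mul, mul_comm r (i : ZMod N), ← nsmul_eq_mul,
            AddChar.map_nsmul_eq_pow]
          ring
      _ = 0 := by
          rw [sum_comm]
          exact sum_eq_zero fun r hr => by rw [← mul_sum, h0 r hr, mul_zero]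
  rw [sum_range_succ, hm.coeff_natDegree] at h2
  have h3 : ∑ i ∈ range P.natDegree, (P.coeff i : ℚ) * g (x + (i : ℕ)) +
      g (x + (P.natDegree : ℕ)) = 0 := by
    simp only [cq, Int.cast_one, one_mul] at h2
    exact_mod_cast h2
  linarith

theorem int_valued (g : ZMod N → ℚ) (f : ZMod N → ℤ)
    (h : (univ.filter fun x => (f x : ℚ) ≠ g x).card * (spec (cq g)).card < N) :
    ∃ g' : ZMod N → ℤ, ∀ x, g x = g' x := by
  obtain ⟨s, c, hs, hc⟩ := gal_rec g
  obtain ⟨x₀, -, hx⟩ := exists_mem_notMem_of_card_lt_card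
    (s := ((univ.filter fun x => (f x : ℚ) ≠ g x) ×ˢ range s).image fun q => q.1 - (q.2 : ZMod N))
    (t := univ) (by
      refine card_image_le.trans_lt ?_
      rw [card_product, card_range, card_univ, ZMod.card]
      exact (Nat.mul_le_mul_left _ hs).trans_lt h)
  have h1 : ∀ n : ℕ, g (x₀ + n) ∈ (Int.castRingHom ℚ).range := by
    intro n
    induction n using Nat.strong_induction_on with
    | _ n ih =>
      rcases lt_or_ge n s with hn | hn
      · by_contra h2
        refine hx (mem_image.2 ⟨(x₀ + n, n), mem_product.2 ⟨mem_filter.2 ⟨mem_univ _, fun h3 => ?_⟩,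
          mem_range.2 hn⟩, add_sub_cancel_right _ _⟩)
        exact h2 ⟨_, h3⟩
      · obtain ⟨m, rfl⟩ := Nat.exists_eq_add_of_le' hn
        rw [Nat.cast_add, ← add_assoc, hc]
        refine neg_mem (sum_mem fun i hi => mul_mem (intCast_mem _ _) ?_)
        rw [add_assoc, ← Nat.cast_add]
        exact ih _ (Nat.add_lt_add_left (mem_range.1 hi) m)
  have h2 : ∀ x, ∃ z : ℤ, g x = z := fun x => by
    obtain ⟨z, hz⟩ := h1 (x - x₀).val
    rw [ZMod.natCast_zmod_val, add_sub_cancel] at hz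
    exact ⟨z, hz.symm⟩
  choose g' hg using h2
  exact ⟨g', hg⟩

end Pool.Agent.Lib.MP_cb7904_an.Id
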