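import Pool.Agent.Lib.MP_cb7904_an.Id.Four

open Finset
open scoped BigOperators

namespace Pool.Agent.Lib.MP_cb7904_an.Id

variable {N : ℕ} [NeZero N]

lemma rank_indep : LinearIndependent ℂ fun (r x : ZMod N) => ch (r * x) := by
  rw [Fintype.linearIndependent_iff]
  intro c hc s
  have h1 : ∀ x, ∑ r, c r * ch (r * x) = 0 := fun x => by
    simpa [Finset.sum_apply] using congrFun hc x
  have h2 : ∑ x, (∑ r, c r * ch (r * x)) * ch (-(s * x)) = c s * N := by
    simp only [Finset.sum_mul]
    rw [Finset.sum_comm]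
    have h3 : ∀ r, ∑ x, c r * ch (r * x) * ch (-(s * x)) =
        if r = s then c r * N else 0 := by
      intro r
      have e : ∀ x, c r * ch (r * x) * ch (-(s * x)) = c r * ch (x * (r - s)) := by
        intro x
        rw [mul_assoc, ← AddChar.map_add_eq_mul]
        congr 2
        ring
      simp only [e]
      rw [← Finset.mul_sum, ch_sum]
      simp only [sub_eq_zero]
      split_ifs <;> simp
    simp only [h3]
    simp
  simp only [h1, zero_mul, Finset.sum_const_zero] at h2
  have hN : (N : ℂ) ≠ 0 := Nat.cast_ne_zero.2 (NeZero.ne N)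
  exact (mul_eq_zero.1 h2.symm).resolve_right hN

lemma rank_conv (u : ZMod N → ℂ) (r x : ZMod N) :
    ∑ y, ch (-(r * y)) * u (x + y) = (N * ft u r) * ch (r * x) := by
  have hN : (N : ℂ) ≠ 0 := Nat.cast_ne_zero.2 (NeZero.ne N)
  rw [ft, ← mul_assoc, mul_one_div_cancel hN, one_mul, Finset.sum_mul,
    ← Equiv.sum_comp (Equiv.addLeft x) fun z => u z * ch (-(r * z)) * ch (r * x)]
  refine Finset.sum_congr rfl fun y _ => ?_
  rw [Equiv.coe_addLeft, mul_assoc, ← AddChar.map_add_eq_mul, mul_comm]
  congr 2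
  ring

theorem rank_le {g : ZMod N → ℚ} {n : ℕ}
    (h : ∀ X Y : Finset (ZMod N), X.card ≤ Y.card → n ≤ Y.card →
      ∃ w : ZMod N → ℚ, (∃ y ∈ Y, w y ≠ 0) ∧ ∀ x ∈ X, ∑ y ∈ Y, w y * g (x + y) = 0) :
    (spec (cq g)).card ≤ n := by
  classical
  set v : ZMod N → ZMod N → ℚ := fun y x => g (x + y) with hv
  obtain ⟨κ, a, ha, hspan, hli⟩ := exists_linearIndependent' ℚ v
  have : Finite κ := Finite.of_injective a ha
  have : Fintype κ := Fintype.ofFinite κ
  have hcard : (univ.image a).card = Fintype.card κ := by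
    rw [Finset.card_image_of_injective _ ha, Finset.card_univ]
  have hcomb : ∀ y, ∃ c : κ → ℚ, ∀ x, g (x + y) = ∑ k, c k * g (x + a k) := by
    intro y
    have h1 : v y ∈ Submodule.span ℚ (Set.range (v ∘ a)) := by
      rw [hspan]
      exact Submodule.subset_span ⟨y, rfl⟩
    obtain ⟨c, hc⟩ := (Submodule.mem_span_range_iff_exists_fun ℚ).1 h1
    refine ⟨c, fun x => ?_⟩
    have := congrFun hc x
    simpa [Finset.sum_apply, hv] using this.symm
  have hκ : Fintype.card κ ≤ n := by
    by_contra hlt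
    obtain ⟨w, ⟨y, hy, hwy⟩, hw⟩ := h (univ.image a) (univ.image a) le_rfl (by omega)
    have hw' : ∀ k, ∑ j, w (a j) * g (a k + a j) = 0 := fun k => by
      have := hw (a k) (Finset.mem_image_of_mem a (Finset.mem_univ k))
      rwa [Finset.sum_image fun _ _ _ _ e => ha e] at this
    have hall : ∑ j, w (a j) • (v ∘ a) j = 0 := by
      funext x
      obtain ⟨c, hc⟩ := hcomb x
      have e : ∀ j, w (a j) * g (x + a j) = ∑ k, c k * (w (a j) * g (a k + a j)) := by
        intro j
        rw [add_comm, hc, Finset.mul_sum]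
        refine Finset.sum_congr rfl fun k _ => ?_
        rw [add_comm]
        ring
      simp only [Finset.sum_apply, Pi.smul_apply, Function.comp, hv, smul_eq_mul, Pi.zero_apply, e]
      rw [Finset.sum_comm]
      simp only [← Finset.mul_sum, hw', mul_zero, Finset.sum_const_zero]
    obtain ⟨k, -, rfl⟩ := Finset.mem_image.1 hy
    exact hwy (Fintype.linearIndependent_iff.1 hli (fun j => w (a j)) hall k)
  set b : κ → ZMod N → ℂ := fun k x => cq g (x + a k) with hb
  have hmem : ∀ y, (fun x => cq g (x + y)) ∈ Submodule.span ℂ (Set.range b) := by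
    intro y
    obtain ⟨c, hc⟩ := hcomb y
    refine (Submodule.mem_span_range_iff_exists_fun ℂ).2 ⟨fun k => (c k : ℂ), ?_⟩
    funext x
    simp [Finset.sum_apply, hb, cq, hc]
  set e : spec (cq g) → ZMod N → ℂ := fun r x => ch (r.1 * x) with he
  have hei : LinearIndependent ℂ e := rank_indep.comp Subtype.val Subtype.val_injective
  have hle : Submodule.span ℂ (Set.range e) ≤ Submodule.span ℂ (Set.range b) := by
    rw [Submodule.span_le]
    rintro _ ⟨r, rfl⟩
    have hN : (N : ℂ) ≠ 0 := Nat.cast_ne_zero.2 (NeZero.ne N)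
    have h0 : (N * ft (cq g) r : ℂ) ≠ 0 := mul_ne_zero hN (mem_spec.1 r.2)
    have h1 : e r = (N * ft (cq g) r : ℂ)⁻¹ •
        ∑ y, ch (-(r.1 * y)) • fun x => cq g (x + y) := by
      funext x
      simp only [he, Pi.smul_apply, Finset.sum_apply, smul_eq_mul]
      rw [rank_conv, inv_mul_cancel_left₀ h0]
    rw [h1]
    exact Submodule.smul_mem _ _
      (Submodule.sum_mem _ fun y _ => Submodule.smul_mem _ _ (hmem y))
  have h1 := Submodule.finrank_mono hle
  rw [finrank_span_eq_card hei, Fintype.card_coe] at h1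
  exact h1.trans ((finrank_range_le_card b).trans hκ)

end Pool.Agent.Lib.MP_cb7904_an.Id
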