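import Pool.Agent.Lib.MP_cb7904_an.Id.Corr
import Pool.Agent.Lib.MP_cb7904_an.Id.Rank
import Pool.Agent.Lib.MP_cb7904_an.Id.Gal

open Finset
open scoped BigOperators

namespace Pool.Agent.Lib.MP_cb7904_an.Id

variable {N : ℕ} [NeZero N]

lemma good_Kt (k : ℕ) : 1600 ≤ Kt k := by
  have : 1 ≤ 4 ^ k := Nat.one_le_pow _ _ (by norm_num)
  unfold Kt
  rw [pow_succ]
  omega

theorem good {F : ZMod N → ℤ} {k : ℕ} (h : ¬ Bad F k) :
    ∃ g : ZMod N → ℤ, sp g ≤ 2 * Kt k ∧ Kt k * dif F g ≤ 1 / 15 := by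
  have hK := good_Kt k
  obtain ⟨g, h1, h2⟩ := correct (by omega) (not_le.1 h)
  have h3 := rank_le h1
  have hN : (0 : ℝ) < N := by exact_mod_cast NeZero.pos N
  have h4 : H16.pr (fun z => (F z : ℚ) ≠ g z) =
      ((univ.filter fun x => (F x : ℚ) ≠ g x).card : ℝ) / N := by
    rw [H16.pr, Fintype.expect_eq_sum_div_card, H16.sum_ind, Fintype.card_subtype, ZMod.card]
  rw [h4, ← mul_div_assoc, div_le_iff₀ hN] at h2
  obtain ⟨c, hc⟩ : ∃ c, c = (univ.filter fun x => (F x : ℚ) ≠ g x).card := ⟨_, rfl⟩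
  have hc0 : (0 : ℝ) ≤ c := Nat.cast_nonneg c
  rw [← hc] at h2
  have h5 : c * (spec (cq g)).card < N := by
    have a1 : ((spec (cq g)).card : ℝ) ≤ 2 * ((Kt k - 1 : ℕ) : ℝ) := by exact_mod_cast h3
    have a2 : (c : ℝ) * (spec (cq g)).card < N := by
      nlinarith [mul_le_mul_of_nonneg_left a1 hc0]
    exact_mod_cast a2
  obtain ⟨g', hg⟩ := int_valued g F (hc ▸ h5)
  have e1 : cz g' = cq g := by
    funext x
    simp [cz, cq, hg]
  refine ⟨g', ?_, ?_⟩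
  · unfold sp
    rw [e1]
    omega
  · have e2 : (univ.filter fun x => F x ≠ g' x).card = c := by
      rw [hc]
      congr 1
      ext x
      simp [hg]
    have a1 : ((Kt k - 1 : ℕ) : ℝ) = Kt k - 1 := by rw [Nat.cast_sub (by omega), Nat.cast_one]
    have a2 : (1600 : ℝ) ≤ Kt k := by exact_mod_cast hK
    rw [a1] at h2
    unfold dif
    rw [e2, ← mul_div_assoc, div_le_iff₀ hN]
    nlinarith

end Pool.Agent.Lib.MP_cb7904_an.Id
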