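import Pool.Agent.Lib.MP_cb7904_an.Id.Four

open Finset
open scoped BigOperators

namespace Pool.Agent.Lib.MP_cb7904_an.Id

variable {N : ℕ} [NeZero N]

lemma roughA_pt {a b r r' T P : ℝ} (hr : 0 < r) (hr' : 0 < r') (h : 4 * T ^ 2 * (r * r') * P ^ 2 ≤ 1) :
    -(a ^ 2 / r + b ^ 2 / r') ≤ 4 * T * P * (a * b) := by
  refine (abs_le_of_sq_le_sq' ?_ (by positivity)).1
  have h1 : (4 * T * P * (a * b)) ^ 2 =
      4 * T ^ 2 * (r * r') * P ^ 2 * (4 * (a ^ 2 / r * (b ^ 2 / r'))) := by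
    field_simp
  rw [h1]
  refine (mul_le_of_le_one_left (by positivity) h).trans ?_
  nlinarith [sq_nonneg (a ^ 2 / r - b ^ 2 / r')]

lemma roughA_lcm {N2 T r r' : ℕ} (h0 : N2 ≠ 0) (hr : r ∣ N2) (hr' : r' ∣ N2) (hne : r ≠ r')
    (big : ∀ p : ℕ, p.Prime → p ∣ N2 → 4 * T ^ 2 < p) : 4 * T ^ 2 * (r * r') ≤ r.lcm r' ^ 2 := by
  have h1 : r.lcm r' ∣ N2 := Nat.lcm_dvd hr hr'
  obtain ⟨q, hq⟩ : r.gcd r' ∣ r.lcm r' := (Nat.gcd_dvd_left _ _).trans (Nat.dvd_lcm_left _ _)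
  have h2 : q ≠ 1 := by
    rintro rfl
    rw [mul_one] at hq
    exact hne (Nat.dvd_antisymm ((Nat.dvd_lcm_left r r').trans (hq ▸ Nat.gcd_dvd_right r r'))
      ((Nat.dvd_lcm_right r r').trans (hq ▸ Nat.gcd_dvd_left r r')))
  have h3 : q ∣ N2 := (Dvd.intro_left _ hq.symm).trans h1
  have h4 : 0 < q := Nat.pos_of_dvd_of_pos h3 (Nat.pos_of_ne_zero h0)
  have h5 := (big _ (Nat.minFac_prime h2) ((Nat.minFac_dvd q).trans h3)).le.trans (Nat.minFac_le h4)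
  calc 4 * T ^ 2 * (r * r') ≤ q * (r * r') := Nat.mul_le_mul_right _ h5
    _ = r.lcm r' ^ 2 := by rw [← Nat.gcd_mul_lcm r r', ← mul_assoc, mul_comm q, ← hq, sq]

lemma roughA_cases (d : ℕ) (a x : ZMod N) :
    ((d : ZMod N) ∣ x - a ∧ cs d a x = 1) ∨ cs d a x = 0 := by
  unfold cs
  split_ifs with h
  exacts [Or.inl ⟨h, rfl⟩, Or.inr rfl]

lemma roughA_off {N2 T : ℕ} (hN : N2 ∣ N) {R R' : ℕ × ℕ} (hR : R.1 ∣ N2 ∧ R.2 < R.1)
    (hR' : R'.1 ∣ N2 ∧ R'.2 < R'.1) (hne : R ≠ R')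
    (big : ∀ p : ℕ, p.Prime → p ∣ N2 → 4 * T ^ 2 < p) :
    4 * (T : ℝ) ^ 2 * (R.1 * R'.1) *
      ((∑ x, (cs R.1 (R.2 : ZMod N) x : ℝ) * cs R'.1 (R'.2 : ZMod N) x) / N) ^ 2 ≤ 1 := by
  by_cases h : ∃ y : ZMod N, (R.1 : ZMod N) ∣ y - R.2 ∧ (R'.1 : ZMod N) ∣ y - R'.2
  swap
  · rw [sum_eq_zero fun x _ => ?_]
    · simp
    rcases roughA_cases R.1 (R.2 : ZMod N) x with h1 | h1
    · rcases roughA_cases R'.1 (R'.2 : ZMod N) x with h2 | h2
      · exact absurd ⟨x, h1.1, h2.1⟩ h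
      · simp [h2]
    · simp [h1]
  obtain ⟨y, y1, y2⟩ := h
  have h1 : R.1 ≠ R'.1 := fun e => hne (Prod.ext e (by
    rw [← e] at y2
    have a1 := map_dvd (ZMod.castHom (hR.1.trans hN) (ZMod R.1)) (dvd_sub y2 y1)
    rw [sub_sub_sub_cancel_left, map_natCast, ZMod.natCast_self, zero_dvd_iff, map_sub,
      map_natCast, map_natCast, sub_eq_zero, ZMod.natCast_eq_natCast_iff',
      Nat.mod_eq_of_lt hR.2, Nat.mod_eq_of_lt (e ▸ hR'.2)] at a1
    exact a1))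
  have h0 : N2 ≠ 0 := ne_zero_of_dvd_ne_zero (NeZero.ne N) hN
  have h2 : (4 * T ^ 2 * (R.1 * R'.1) : ℝ) ≤ (R.1.lcm R'.1 : ℕ) ^ 2 := by
    exact_mod_cast roughA_lcm h0 hR.1 hR'.1 h1 big
  have h3 : R.1.lcm R'.1 ∣ N := (Nat.lcm_dvd hR.1 hR'.1).trans hN
  have h4 : (0 : ℝ) < (R.1.lcm R'.1 : ℕ) := by
    exact_mod_cast Nat.pos_of_dvd_of_pos h3 (NeZero.pos N)
  have h5 : ∀ (d : ℕ) (a x : ZMod N), (0 : ℝ) ≤ cs d a x := fun d a x => by
    rcases roughA_cases d a x with h | h <;> simp [h]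
  have h6 : (∑ x, (cs R.1 (R.2 : ZMod N) x : ℝ) * cs R'.1 (R'.2 : ZMod N) x) / N ≤
      1 / (R.1.lcm R'.1 : ℕ) := by
    rw [← mean_cs h3 y]
    refine div_le_div_of_nonneg_right (sum_le_sum fun x _ => ?_) (Nat.cast_nonneg _)
    rcases roughA_cases R.1 (R.2 : ZMod N) x with a1 | a1
    · rcases roughA_cases R'.1 (R'.2 : ZMod N) x with a2 | a2
      · have a3 := dvd_sub a1.1 y1
        have a4 := dvd_sub a2.1 y2
        rw [sub_sub_sub_cancel_right] at a3 a4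
        have a5 := (dvd_iff_val h3 _).2 (Nat.lcm_dvd ((dvd_iff_val (hR.1.trans hN) _).1 a3)
          ((dvd_iff_val (hR'.1.trans hN) _).1 a4))
        rw [a1.2, a2.2, cs, if_pos a5]
        norm_num
      · simpa [a2] using h5 _ y x
    · simpa [a1] using h5 _ y x
  have h7 := pow_le_pow_left₀ (div_nonneg (sum_nonneg fun x _ => mul_nonneg (h5 _ _ x) (h5 _ _ x))
    (Nat.cast_nonneg _)) h6 2
  refine (mul_le_mul h2 h7 (sq_nonneg _) (sq_nonneg _)).trans_eq ?_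
  field_simp

theorem rough_l2 {N1 N2 T : ℕ} {S : Finset (ℕ × ℕ)} {φ : ℕ × ℕ → ZMod N → ℤ} {h : ZMod N → ℤ}
    (H : Dec N1 N2 T S φ h) : ∑ R ∈ S, n2 (φ R) / R.1 ≤ 2 * n2 h := by
  rcases Nat.eq_zero_or_pos T with rfl | hT
  · rw [card_eq_zero.1 (Nat.le_zero.1 H.card), sum_empty]
    exact mul_nonneg zero_le_two (n2_nonneg h)
  have hT' : (0 : ℝ) < T := by exact_mod_cast hT
  have hN : (0 : ℝ) < N := by exact_mod_cast NeZero.pos N
  have h1 : n2 h = ∑ R ∈ S, ∑ R' ∈ S, (∑ x, (φ R x : ℝ) * φ R' x) / N *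
      ((∑ x, (cs R.1 (R.2 : ZMod N) x : ℝ) * cs R'.1 (R'.2 : ZMod N) x) / N) := by
    have a1 : ∀ x, (h x : ℝ) ^ 2 = ∑ R ∈ S, ∑ R' ∈ S, (φ R x : ℝ) * φ R' x *
        ((cs R.1 (R.2 : ZMod N) x : ℝ) * cs R'.1 (R'.2 : ZMod N) x) := fun x => by
      rw [H.eq, sq]
      push_cast
      rw [sum_mul_sum]
      exact sum_congr rfl fun R _ => sum_congr rfl fun R' _ => by ring
    rw [n2, sum_congr rfl fun x _ => a1 x, sum_comm, sum_div]
    refine sum_congr rfl fun R hR => ?_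
    rw [sum_comm, sum_div]
    refine sum_congr rfl fun R' hR' => mean_mul H.cop (fun x t => ?_) fun x t => ?_
    · simp only [H.per R x t, H.per R' x t]
    · simp only [(cs_per R.1 _).of_dvd (H.mem R hR).1 x t,
        (cs_per R'.1 _).of_dvd (H.mem R' hR').1 x t]
  have h2 : ∀ R ∈ S, (0 : ℝ) < R.1 := fun R hR => by
    exact_mod_cast Nat.zero_lt_of_lt (H.mem R hR).2
  have h3 : ∀ R ∈ S, 0 ≤ n2 (φ R) / R.1 := fun R hR => div_nonneg (n2_nonneg _) (h2 R hR).le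
  have h4 : ∀ R ∈ S, ∀ R' ∈ S,
      (if R = R' then 4 * T * (n2 (φ R) / R.1) else 0) - (n2 (φ R) / R.1 + n2 (φ R') / R'.1) ≤
      4 * T * ((∑ x, (φ R x : ℝ) * φ R' x) / N *
        ((∑ x, (cs R.1 (R.2 : ZMod N) x : ℝ) * cs R'.1 (R'.2 : ZMod N) x) / N)) := by
    intro R hR R' hR'
    by_cases e : R = R'
    · subst e
      have a1 : ∀ x, (cs R.1 (R.2 : ZMod N) x : ℝ) * cs R.1 (R.2 : ZMod N) x =
          cs R.1 (R.2 : ZMod N) x := fun x => by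
        rcases roughA_cases R.1 (R.2 : ZMod N) x with a | a <;> simp [a]
      have a2 := h3 R hR
      simp only [a1, mean_cs ((H.mem R hR).1.trans H.dvd), if_true, ← sq]
      rw [mul_one_div, ← n2]
      linarith
    · have a1 := roughA_off (T := T) H.dvd (H.mem R hR) (H.mem R' hR') e H.big
      have a2 := sum_le_sum fun x (_ : x ∈ univ) =>
        roughA_pt (a := φ R x) (b := φ R' x) (h2 R hR) (h2 R' hR') a1
      have a3 := div_le_div_of_nonneg_right a2 hN.le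
      rw [sum_neg_distrib, sum_add_distrib, ← sum_div, ← sum_div, ← mul_sum] at a3
      rw [if_neg e, zero_sub, n2, n2]
      refine le_of_eq_of_le (by ring) (a3.trans_eq (by ring))
  have h5 := sum_le_sum fun R hR => sum_le_sum fun R' hR' => h4 R hR R' hR'
  simp only [← mul_sum, ← h1, sum_sub_distrib, sum_add_distrib, sum_const, nsmul_eq_mul] at h5
  rw [sum_congr rfl fun R hR => (sum_ite_eq S R _).trans (if_pos hR), ← mul_sum] at h5
  have h6 : (S.card : ℝ) ≤ T := by exact_mod_cast H.card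
  have h7 := mul_le_mul_of_nonneg_right h6 (sum_nonneg h3)
  refine le_of_mul_le_mul_left ?_ hT'
  linarith

end Pool.Agent.Lib.MP_cb7904_an.Id
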