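import Pool.Agent.Lib.MP_cb7904_an.Id.Defs

open Finset
open scoped BigOperators

namespace Pool.Agent.Lib.MP_cb7904_an.Id

variable {N : ℕ} [NeZero N]

lemma mann_pick {ι : Type} (ρ : ZMod N) (B : Finset ι) (v : ι → ZMod N) {p m : ℕ} (hp : p.Prime)
    (hd : p ∣ addOrderOf ρ) (hm : ¬ p ∣ m) (hB : B.card < p) :
    ∃ η : ZMod N, (p : ZMod N) * η = 0 ∧ ∀ i ∈ B, (m : ZMod N) * η ≠ v i := by
  classical
  have := Fact.mk hp
  obtain ⟨f, hf⟩ := hd
  have he : 0 < addOrderOf ρ := addOrderOf_pos ρ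
  have hf0 : 0 < f := Nat.pos_of_ne_zero fun h => by rw [hf, h] at he; simp at he
  have h1 : p • ((m * f) • ρ) = 0 := by
    rw [← mul_nsmul', show p * (m * f) = m * (p * f) by ring, ← hf, mul_nsmul',
      addOrderOf_nsmul_eq_zero, nsmul_zero]
  have h2 : (m * f) • ρ ≠ 0 := fun h => by
    have := addOrderOf_dvd_of_nsmul_eq_zero h
    rw [hf] at this
    exact hm (Nat.dvd_of_mul_dvd_mul_right hf0 this)
  have h3 : addOrderOf ((m * f) • ρ) = p := addOrderOf_eq_prime h1 h2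
  have h4 : ((range p).image fun a => a • ((m * f) • ρ)).card = p := by
    rw [card_image_of_injOn, card_range]
    intro a ha b hb hab
    refine nsmul_injOn_Iio_addOrderOf ?_ ?_ hab
    · rw [h3]; simpa using ha
    · rw [h3]; simpa using hb
  obtain ⟨x, hx, hx'⟩ := exists_mem_notMem_of_card_lt_card
    (s := B.image v) (t := (range p).image fun a => a • ((m * f) • ρ))
    (by rw [h4]; exact card_image_le.trans_lt hB)
  obtain ⟨a, -, rfl⟩ := mem_image.1 hx
  refine ⟨(a * f) • ρ, ?_, fun i hi h => hx' (mem_image.2 ⟨i, hi, ?_⟩)⟩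
  · rw [← nsmul_eq_mul, ← mul_nsmul', show p * (a * f) = a * (p * f) by ring, ← hf, mul_nsmul',
      addOrderOf_nsmul_eq_zero, nsmul_zero]
  · rw [← h]
    simp only [nsmul_eq_mul]
    push_cast
    ring

lemma mann_prod (k : ZMod N) (η : ℕ → ZMod N) (t : Finset ℕ) :
    ∏ p ∈ t, (-ch (k * η p)) = (-1) ^ t.card * ch (k * ∑ p ∈ t, η p) := by
  induction t using Finset.induction_on with
  | empty => simp
  | insert a s ha ih =>
    rw [prod_insert ha, sum_insert ha, card_insert_of_notMem ha, ih, mul_add,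
      AddChar.map_add_eq_mul]
    ring

theorem mann {ι : Type} (ρ : ZMod N) (B : Finset ι) (c : ι → ZMod N) (α : ι → ℂ) {i0 : ι}
    (h0 : i0 ∈ B) (hc : ∀ i ∈ B, i ≠ i0 → (c i - c i0) * ρ ≠ 0)
    (hp : ∀ p : ℕ, p.Prime → p ∣ addOrderOf ρ → B.card < p)
    (h : ∀ k : ℕ, Nat.Coprime k (addOrderOf ρ) → ∑ i ∈ B, α i * ch (-((k : ZMod N) * ρ * c i)) = 0) :
    α i0 = 0 := by
  classical
  have he : addOrderOf ρ ≠ 0 := (addOrderOf_pos ρ).ne'
  set P := (addOrderOf ρ).primeFactors with hP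
  have pick : ∀ p : ℕ, ∃ η : ZMod N, p ∈ P → (p : ZMod N) * η = 0 ∧
      ∀ i ∈ B, ((∏ q ∈ P.erase p, q : ℕ) : ZMod N) * η ≠
        ((∏ q ∈ P.erase p, q : ℕ) : ZMod N) * ((c i - c i0) * ρ) := by
    intro p
    by_cases hpP : p ∈ P
    · have h1 := Nat.prime_of_mem_primeFactors hpP
      have h2 := Nat.dvd_of_mem_primeFactors hpP
      obtain ⟨η, hη⟩ := mann_pick ρ B
        (fun i => ((∏ q ∈ P.erase p, q : ℕ) : ZMod N) * ((c i - c i0) * ρ)) h1 h2
        (m := ∏ q ∈ P.erase p, q) (fun hd => by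
          obtain ⟨q, hq, hq'⟩ := (Prime.dvd_finsetProd_iff h1.prime _).1 hd
          rw [mem_erase] at hq
          exact hq.1 ((Nat.prime_dvd_prime_iff_eq h1
            (Nat.prime_of_mem_primeFactors hq.2)).1 hq').symm) (hp p h1 h2)
      exact ⟨η, fun _ => hη⟩
    · exact ⟨0, fun h => absurd h hpP⟩
  choose η hη using pick
  have van : ∀ k : ZMod N, (∏ p ∈ P, (1 + -ch (k * η p))) * (ch (k * ρ * c i0) *
      ∑ i ∈ B, α i * ch (-(k * ρ * c i))) = 0 := by
    intro k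
    by_cases hk : ∃ p ∈ P, p ∣ k.val
    · obtain ⟨p, hpP, t, ht⟩ := hk
      have : k * η p = 0 := by
        rw [← ZMod.natCast_zmod_val k, ht, Nat.cast_mul, mul_right_comm, (hη p hpP).1, zero_mul]
      rw [prod_eq_zero hpP (by rw [this, AddChar.map_zero_eq_one]; ring), zero_mul]
    · have := h k.val (Nat.coprime_of_dvd fun q hq h1 h2 =>
        hk ⟨q, Nat.mem_primeFactors.2 ⟨hq, h2, he⟩, h1⟩)
      rw [ZMod.natCast_zmod_val] at this
      rw [this, mul_zero, mul_zero]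
  have ex : ∀ k : ZMod N, (∏ p ∈ P, (1 + -ch (k * η p))) * (ch (k * ρ * c i0) *
      ∑ i ∈ B, α i * ch (-(k * ρ * c i))) = ∑ t ∈ P.powerset, ∑ i ∈ B,
        (-1) ^ t.card * α i * ch (k * (∑ p ∈ t, η p - (c i - c i0) * ρ)) := by
    intro k
    rw [prod_one_add, sum_mul]
    refine sum_congr rfl fun t _ => ?_
    rw [mann_prod, mul_sum B, mul_sum B]
    refine sum_congr rfl fun i _ => ?_
    rw [show k * (∑ p ∈ t, η p - (c i - c i0) * ρ) =
      k * ∑ p ∈ t, η p + (k * ρ * c i0 + -(k * ρ * c i)) by ring, AddChar.map_add_eq_mul,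
      AddChar.map_add_eq_mul]
    ring
  have tot : ∑ t ∈ P.powerset, ∑ i ∈ B, (-1) ^ t.card * α i *
      (if ∑ p ∈ t, η p - (c i - c i0) * ρ = 0 then (N : ℂ) else 0) = 0 := by
    have : ∑ k : ZMod N, ∑ t ∈ P.powerset, ∑ i ∈ B,
        (-1) ^ t.card * α i * ch (k * (∑ p ∈ t, η p - (c i - c i0) * ρ)) = 0 :=
      sum_eq_zero fun k _ => (ex k).symm.trans (van k)
    rw [sum_comm] at this
    refine (sum_congr rfl fun t _ => ?_).trans this
    rw [sum_comm]
    refine sum_congr rfl fun i _ => ?_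
    rw [← mul_sum, ch_sum]
  rw [sum_eq_single ∅, sum_eq_single i0] at tot
  · have hN : (N : ℂ) ≠ 0 := by exact_mod_cast NeZero.ne N
    simpa [hN] using tot
  · intro i hi hne
    rw [if_neg, mul_zero]
    simpa using hc i hi hne
  · exact fun h => absurd h0 h
  · intro t ht hne
    refine sum_eq_zero fun i hi => ?_
    rw [if_neg, mul_zero]
    intro hz
    obtain ⟨p, hpt⟩ := nonempty_iff_ne_empty.2 hne
    have hsub := mem_powerset.1 ht
    refine (hη p (hsub hpt)).2 i hi ?_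
    rw [← sub_eq_zero.1 hz, mul_sum, sum_eq_single p]
    · intro q hq hqp
      obtain ⟨u, hu⟩ : q ∣ ∏ q ∈ P.erase p, q := dvd_prod_of_mem _ (mem_erase.2 ⟨hqp, hsub hq⟩)
      rw [hu, Nat.cast_mul, mul_right_comm, (hη q (hsub hq)).1, zero_mul]
    · exact fun h => absurd hpt h
  · exact fun h => absurd (empty_mem_powerset _) h

end Pool.Agent.Lib.MP_cb7904_an.Id
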