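import Pool.Agent.Lib.MP_cb7904_an.Id.Gal
import Pool.Agent.Lib.MP_cb7904_an.Id.Mann

open Finset
open scoped BigOperators

namespace Pool.Agent.Lib.MP_cb7904_an.Id

variable {N : ℕ} [NeZero N]

/-- Few characters of modulus `r` are also killed by a number that `r` does not divide. -/
theorem roughB_excl {r y : ℕ} (hr : r ∣ N) (hy : ∀ p : ℕ, p.Prime → p ∣ r → y < p) {w : ℤ}
    (hw : ¬ (r : ℤ) ∣ w) :
    y * (univ.filter fun x : ZMod N => (r : ZMod N) * x = 0 ∧ (w : ZMod N) * x = 0).card ≤ r := by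
  have h1 : Int.gcd r w ∣ r := by exact_mod_cast Int.gcd_dvd_left (r : ℤ) w
  have h2 : (univ.filter fun x : ZMod N => (r : ZMod N) * x = 0 ∧ (w : ZMod N) * x = 0).card ≤
      Int.gcd r w := by
    refine le_trans (card_le_card fun x hx => ?_) (card_ann (h1.trans hr)).le
    obtain ⟨-, e1, e2⟩ := mem_filter.1 hx
    have e := congrArg (Int.cast : ℤ → ZMod N) (Int.gcd_eq_gcd_ab r w)
    push_cast at e
    refine mem_filter.2 ⟨mem_univ _, ?_⟩
    rw [e]
    linear_combination ((Int.gcdA r w : ℤ) : ZMod N) * e1 + ((Int.gcdB r w : ℤ) : ZMod N) * e2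
  obtain ⟨c, hc⟩ := h1
  have h3 : c ≠ 1 := by
    rintro rfl
    exact hw (by rw [hc, mul_one]; exact Int.gcd_dvd_right _ _)
  have h4 : c ≠ 0 := by
    rintro rfl
    exact NeZero.ne N (Nat.eq_zero_of_zero_dvd (by rwa [hc, mul_zero] at hr))
  have h5 := hy _ (Nat.minFac_prime h3) ((Nat.minFac_dvd c).trans ⟨Int.gcd r w, by rw [mul_comm, ← hc]⟩)
  have h6 := Nat.minFac_le (Nat.pos_of_ne_zero h4)
  calc _ ≤ c * Int.gcd r w := Nat.mul_le_mul (by omega) h2
    _ = r := by rw [mul_comm, ← hc]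

omit [NeZero N] in
theorem roughB_ord {m : ℕ} {x : ZMod N} : addOrderOf x ∣ m ↔ (m : ZMod N) * x = 0 := by
  rw [addOrderOf_dvd_iff_nsmul_eq_zero, nsmul_eq_mul]

theorem roughB_ft {N1 N2 T : ℕ} {S : Finset (ℕ × ℕ)} {φ : ℕ × ℕ → ZMod N → ℤ} {h : ZMod N → ℤ}
    (H : Dec N1 N2 T S φ h) {r1 r2 : ZMod N} (h1 : (N1 : ZMod N) * r1 = 0)
    (h2 : (N2 : ZMod N) * r2 = 0) : ft (cz h) (r1 + r2) = ∑ R ∈ S, ft (cz (φ R)) r1 *
      if (R.1 : ZMod N) * r2 = 0 then ch (-(r2 * (R.2 : ZMod N))) / R.1 else 0 := by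
  have e : cz h = fun x => ∑ R ∈ S, cz (φ R) x * cz (cs R.1 (R.2 : ZMod N)) x := by
    funext x
    simp only [cz, H.eq x]
    push_cast
    rfl
  rw [e, ft_sum]
  refine sum_congr rfl fun R hR => ?_
  rw [ft_mul H.cop (fun x t => by simp only [cz, H.per R x t])
    (fun x t => by simp only [cz, (cs_per R.1 _).of_dvd (H.mem R hR).1 x t]) h1 h2,
    ft_cs ((H.mem R hR).1.trans H.dvd)]

theorem roughB_key {N1 N2 T : ℕ} {S : Finset (ℕ × ℕ)} {φ : ℕ × ℕ → ZMod N → ℤ} {h : ZMod N → ℤ}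
    (H : Dec N1 N2 T S φ h) {R : ℕ × ℕ} (hR : R ∈ S) {r1 : ZMod N}
    (h0 : ft (cz (φ R)) r1 ≠ 0) : R.1 ≤ 2 * (univ.filter fun r2 : ZMod N =>
      (N2 : ZMod N) * r2 = 0 ∧ ft (cz h) (r1 + r2) ≠ 0).card := by
  classical
  have h1 : (N1 : ZMod N) * r1 = 0 := ft_per (fun x t => by simp only [cz, H.per R x t]) h0
  obtain ⟨Q, hQ, hmax⟩ := exists_max_image (S.filter fun R' => ft (cz (φ R')) r1 ≠ 0) Prod.fst
    ⟨R, mem_filter.2 ⟨hR, h0⟩⟩
  obtain ⟨hQS, hQ0⟩ := mem_filter.1 hQ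
  obtain ⟨hQd, hQl⟩ := H.mem Q hQS
  have hT : 1 ≤ T := (card_pos.2 ⟨R, hR⟩).trans_le H.card
  set S' := S.filter fun R' => ft (cz (φ R')) r1 ≠ 0 with hS'
  let w : ℕ × ℕ → ℤ := fun P => if P.1 = Q.1 then (P.2 : ℤ) - Q.2 else P.1
  let X : ℕ × ℕ → Finset (ZMod N) := fun P =>
    univ.filter fun x => (Q.1 : ZMod N) * x = 0 ∧ (w P : ZMod N) * x = 0
  have hX : ∀ P ∈ S'.erase Q, 4 * T ^ 2 * (X P).card ≤ Q.1 := fun P hP => by
    obtain ⟨hne, hP⟩ := mem_erase.1 hP
    have e1 := hmax P hP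
    have e2 := (H.mem P (mem_filter.1 hP).1).2
    refine roughB_excl (hQd.trans H.dvd) (fun p hp hd => H.big p hp (hd.trans hQd)) fun hd => ?_
    have e3 := Int.eq_zero_of_abs_lt_dvd hd (by simp only [w]; split_ifs <;> rw [abs_lt] <;> omega)
    simp only [w] at e3
    split_ifs at e3 with e4
    · exact hne (Prod.ext e4 (by omega))
    · omega
  have hU : 2 * ((S'.erase Q).biUnion X).card ≤ Q.1 := by
    have e1 : 4 * T ^ 2 * ((S'.erase Q).biUnion X).card ≤ T * Q.1 :=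
      calc _ ≤ 4 * T ^ 2 * ∑ P ∈ S'.erase Q, (X P).card := Nat.mul_le_mul_left _ card_biUnion_le
        _ ≤ (S'.erase Q).card • Q.1 := by rw [mul_sum]; exact sum_le_card_nsmul _ _ _ hX
        _ ≤ T * Q.1 := Nat.mul_le_mul_right _
          (card_erase_le.trans ((card_filter_le _ _).trans H.card))
    refine Nat.le_of_mul_le_mul_left (le_trans ?_ e1) hT
    nlinarith [Nat.zero_le (T * ((S'.erase Q).biUnion X).card),
      Nat.mul_le_mul_right (T * ((S'.erase Q).biUnion X).card) hT]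
  have hsub : (univ.filter fun x : ZMod N => (Q.1 : ZMod N) * x = 0) ⊆ (univ.filter fun r2 =>
      (N2 : ZMod N) * r2 = 0 ∧ ft (cz h) (r1 + r2) ≠ 0) ∪ (S'.erase Q).biUnion X := fun x hx => by
    have e1 := (mem_filter.1 hx).2
    have e2 := (roughB_ord.2 e1).trans hQd
    rw [mem_union, or_iff_not_imp_right]
    intro hn
    have e3 : ∀ P ∈ S', P ≠ Q → (w P : ZMod N) * x ≠ 0 := fun P hP hne e =>
      hn (mem_biUnion.2 ⟨P, mem_erase.2 ⟨hne, hP⟩, mem_filter.2 ⟨mem_univ _, e1, e⟩⟩)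
    refine mem_filter.2 ⟨mem_univ _, roughB_ord.1 e2, fun hz => ?_⟩
    have e4 := mann x (S'.filter fun P => P.1 = Q.1) (fun P => (P.2 : ZMod N))
      (fun P => ft (cz (φ P)) r1 / Q.1) (mem_filter.2 ⟨hQ, rfl⟩) (fun P hP hne => by
        have := e3 P (mem_filter.1 hP).1 hne
        simpa only [w, if_pos (mem_filter.1 hP).2, Int.cast_sub, Int.cast_natCast] using this)
      (fun p hp hd => by
        have := H.big p hp (hd.trans e2)
        have := ((card_filter_le S' fun P => P.1 = Q.1).trans (card_filter_le _ _)).trans H.card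
        nlinarith) fun k hk => by
      have e5 : addOrderOf ((k : ZMod N) * x) = addOrderOf x := by
        rw [← nsmul_eq_mul]
        exact hk.symm.addOrderOf_nsmul
      have e6 : ∀ z : ZMod N, addOrderOf z = addOrderOf x →
          addOrderOf (r1 + z) = addOrderOf r1 * addOrderOf x := fun z hz => by
        rw [← hz]
        exact (AddCommute.all r1 z).addOrderOf_add_eq_mul_addOrderOf_of_coprime
          ((H.cop.of_dvd_left (roughB_ord.2 h1)).of_dvd_right (hz ▸ e2))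
      have e7 : ft (cz h) (r1 + k * x) = 0 := by
        rw [cz_eq_cq] at hz ⊢
        exact gal _ ((e6 x rfl).trans (e6 _ e5).symm) hz
      rw [roughB_ft H h1 (roughB_ord.1 (e5 ▸ e2))] at e7
      rw [← e7, hS', filter_filter, sum_filter]
      refine sum_congr rfl fun P hP => ?_
      by_cases g1 : ft (cz (φ P)) r1 = 0
      · simp [g1]
      by_cases g2 : P.1 = Q.1
      · rw [if_pos ⟨g1, g2⟩, if_pos (by rw [g2]; linear_combination (k : ZMod N) * e1), g2]
        ring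
      · rw [if_neg fun G => g2 G.2, if_neg fun G => ?_, mul_zero]
        have := e3 P (mem_filter.2 ⟨hP, g1⟩) fun G' => g2 (by rw [G'])
        simp only [w, if_neg g2, Int.cast_natCast] at this
        exact this (roughB_ord.1 (e5 ▸ roughB_ord.2 G))
    rcases div_eq_zero_iff.1 e4 with G | G
    · exact hQ0 G
    · exact absurd (Nat.cast_eq_zero.1 G) (by omega)
  have e8 := (card_le_card hsub).trans (card_union_le _ _)
  rw [card_ann (hQd.trans H.dvd)] at e8
  have e9 := hmax R (mem_filter.2 ⟨hR, h0⟩)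
  omega

theorem rough_sp {N1 N2 T : ℕ} {S : Finset (ℕ × ℕ)} {φ : ℕ × ℕ → ZMod N → ℤ} {h : ZMod N → ℤ}
    (H : Dec N1 N2 T S φ h) {R : ℕ × ℕ} (hR : R ∈ S) : sp (φ R) * R.1 ≤ 2 * sp h := by
  classical
  have h1 : ((spec (cz (φ R))).sigma fun r1 => univ.filter fun r2 : ZMod N =>
      (N2 : ZMod N) * r2 = 0 ∧ ft (cz h) (r1 + r2) ≠ 0).card ≤ sp h := by
    refine card_le_card_of_injOn (fun z => z.1 + z.2)
      (fun z hz => mem_spec.2 (mem_filter.1 (mem_sigma.1 hz).2).2.2) ?_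
    rintro ⟨a, b⟩ hz ⟨a', b'⟩ hz' e
    have p : ∀ r ∈ spec (cz (φ R)), (N1 : ZMod N) * r = 0 := fun r hr =>
      ft_per (fun x t => by simp only [cz, H.per R x t]) (mem_spec.1 hr)
    have e1 := p a (mem_sigma.1 hz).1
    have e2 := p a' (mem_sigma.1 hz').1
    have e3 := (mem_filter.1 (mem_sigma.1 hz).2).2.1
    have e4 := (mem_filter.1 (mem_sigma.1 hz').2).2.1
    obtain ⟨u, v, e5⟩ : IsCoprime (N1 : ZMod N) N2 := H.cop.cast
    simp only at e e3 e4
    have e6 : a = a' := by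
      linear_combination (a' - a) * e5 + u * e1 - u * e2 - v * e3 + v * e4 + v * N2 * e
    subst e6
    rw [add_left_cancel e]
  rw [card_sigma] at h1
  refine le_trans ?_ (Nat.mul_le_mul_left 2 h1)
  rw [mul_sum, sp, ← smul_eq_mul]
  exact card_nsmul_le_sum _ _ _ fun r hr => roughB_key H hR (mem_spec.1 hr)

end Pool.Agent.Lib.MP_cb7904_an.Id
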