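import Pool.Agent.Lib.MP_cb7904_an.Id.Smooth
import Pool.Agent.Lib.MP_cb7904_an.Id.RoughA
import Pool.Agent.Lib.MP_cb7904_an.Id.RoughB

open Finset
open scoped BigOperators

namespace Pool.Agent.Lib.MP_cb7904_an.Id

theorem rough_split (y N : ℕ) (hN : N ≠ 0) : ∃ N1 N2 : ℕ, N = N1 * N2 ∧
    (∀ p : ℕ, p.Prime → p ∣ N1 → p ≤ y) ∧ ∀ p : ℕ, p.Prime → p ∣ N2 → y < p := by
  induction N using induction_on_primes with
  | zero => exact absurd rfl hN
  | one =>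
    exact ⟨1, 1, rfl, fun p hp h => absurd h hp.not_dvd_one, fun p hp h => absurd h hp.not_dvd_one⟩
  | prime_mul q a hq ih =>
    obtain ⟨N1, N2, rfl, h1, h2⟩ := ih (right_ne_zero_of_mul hN)
    rcases le_or_gt q y with h | h
    · refine ⟨q * N1, N2, by ring, fun p hp hd => ?_, h2⟩
      rcases hp.dvd_mul.1 hd with g | g
      · rwa [(Nat.prime_dvd_prime_iff_eq hp hq).1 g]
      · exact h1 p hp g
    · refine ⟨N1, q * N2, by ring, h1, fun p hp hd => ?_⟩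
      rcases hp.dvd_mul.1 hd with g | g
      · rwa [(Nat.prime_dvd_prime_iff_eq hp hq).1 g]
      · exact h2 p hp g

theorem rough_dec {N : ℕ} [NeZero N] {N1 N2 T : ℕ} (hN : N = N1 * N2) (hc : Nat.Coprime N1 N2)
    (hb : ∀ p : ℕ, p.Prime → p ∣ N2 → 4 * T ^ 2 < p) {h : ZMod N → ℤ} (H : Cost N h T) :
    ∃ (S : Finset (ℕ × ℕ)) (φ : ℕ × ℕ → ZMod N → ℤ), Dec N1 N2 T S φ h := by
  obtain ⟨J, _, ε, d, a, hJ, hd, he⟩ := H
  have h2 : 0 < N2 := Nat.pos_of_ne_zero fun e => NeZero.ne N (by rw [hN, e, mul_zero])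
  let key : J → ℕ × ℕ := fun j => (Nat.gcd (d j) N2, (a j).val % Nat.gcd (d j) N2)
  refine ⟨univ.image key, fun R x => ∑ j ∈ univ.filter fun j => key j = R,
    ε j * cs (Nat.gcd (d j) N1) (a j) x, hc, Dvd.intro_left N1 hN.symm, fun R hR => ?_, ?_, hb,
    fun R x t => ?_, fun x => ?_⟩
  · obtain ⟨j, -, rfl⟩ := mem_image.1 hR
    exact ⟨Nat.gcd_dvd_right _ _, Nat.mod_lt _ (Nat.gcd_pos_of_pos_right _ h2)⟩
  · exact card_image_le.trans (by exact_mod_cast hJ)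
  · exact sum_congr rfl fun j _ => by
      rw [(cs_per (Nat.gcd (d j) N1) (a j)).of_dvd (Nat.gcd_dvd_right _ _) x t]
  · rw [he x, ← sum_fiberwise_of_maps_to (s := univ) (t := univ.image key) (g := key)
      fun j hj => mem_image_of_mem key hj]
    refine sum_congr rfl fun R _ => ?_
    rw [sum_mul]
    refine sum_congr rfl fun j hj => ?_
    have e : d j = Nat.gcd (d j) N1 * Nat.gcd (d j) N2 := by
      rw [← Nat.Coprime.gcd_mul _ hc, ← hN, Nat.gcd_eq_left (hd j).2]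
    rw [← (mem_filter.1 hj).2, mul_assoc]
    change _ = ε j * (_ * cs (Nat.gcd (d j) N2) (((a j).val % Nat.gcd (d j) N2 : ℕ) : ZMod N) x)
    rw [cs_mod, ← cs_split ((hc.coprime_dvd_left (Nat.gcd_dvd_right _ _)).coprime_dvd_right
      (Nat.gcd_dvd_right _ _)), ← e]

theorem struct : ∃ C : ℝ, 0 ≤ C ∧ ∀ (N : ℕ) [NeZero N] (h : ZMod N → ℤ),
    Cost N h (C * (sp h * n2 h) ^ 2) := by
  obtain ⟨C, hC, hTh⟩ := Th_le
  refine ⟨16 * C ^ 2, by positivity, fun N _ h => ?_⟩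
  obtain ⟨T, hT, hmin⟩ := (smooth (N := N) (m := N) (y := N + 3) dvd_rfl (by omega)
    (fun p _ hp => (Nat.le_of_dvd (NeZero.pos N) hp).trans (by omega)) (h := h)
    fun x t => by simp).least
  refine hT.mono dvd_rfl ?_
  rcases Nat.eq_zero_or_pos T with rfl | hT0
  · rw [Nat.cast_zero]
    positivity
  obtain ⟨N1, N2, hN, h1, h2⟩ := rough_split (4 * T ^ 2) N (NeZero.ne N)
  have hc : Nat.Coprime N1 N2 := Nat.coprime_of_dvd fun p hp g1 g2 =>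
    (h1 p hp g1).not_gt (h2 p hp g2)
  obtain ⟨S, φ, H⟩ := rough_dec hN hc h2 hT
  have hy : 3 ≤ 4 * T ^ 2 := by nlinarith
  have h3 := hmin _ ((Cost.sum (m := N) S (fun R x => φ R x * cs R.1 (R.2 : ZMod N) x)
    (fun R => Th (4 * T ^ 2) * (sp (φ R) * n2 (φ R))) fun R hR =>
      ((smooth (Dvd.intro N2 hN.symm) hy h1 (H.per R)).mul_cs
        (hc.coprime_dvd_right (H.mem R hR).1) (R.2 : ZMod N)).mono
        (hN ▸ Nat.mul_dvd_mul_left N1 (H.mem R hR).1) le_rfl).congr H.eq)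
  have h4 : ∑ R ∈ S, (sp (φ R) * n2 (φ R) : ℝ) ≤ 2 * sp h * ∑ R ∈ S, n2 (φ R) / R.1 := by
    rw [mul_sum]
    refine sum_le_sum fun R hR => ?_
    have g1 : (0 : ℝ) < R.1 := by exact_mod_cast (Nat.zero_le _).trans_lt (H.mem R hR).2
    have g2 : (sp (φ R) : ℝ) * R.1 ≤ 2 * sp h := by exact_mod_cast rough_sp H hR
    rw [← mul_div_assoc, le_div_iff₀ g1, mul_right_comm]
    exact mul_le_mul_of_nonneg_right g2 (n2_nonneg _)
  have h5 : ∑ R ∈ S, (sp (φ R) * n2 (φ R) : ℝ) ≤ 4 * (sp h * n2 h) :=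
    (h4.trans (mul_le_mul_of_nonneg_left (rough_l2 H) (by positivity))).trans_eq (by ring)
  have h6 : (0 : ℝ) ≤ ∑ R ∈ S, (sp (φ R) * n2 (φ R) : ℝ) :=
    sum_nonneg fun R _ => mul_nonneg (Nat.cast_nonneg _) (n2_nonneg _)
  rw [← mul_sum] at h3
  have hs : (0 : ℝ) < √T := Real.sqrt_pos.2 (by exact_mod_cast hT0)
  have h7 : (T : ℝ) ≤ C * √T * (4 * (sp h * n2 h)) :=
    h3.trans (mul_le_mul (hTh T hT0) h5 h6 (by positivity))
  have h8 : √T * √T = (T : ℝ) := Real.mul_self_sqrt (Nat.cast_nonneg _)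
  have h9 : √T ≤ 4 * C * (sp h * n2 h) :=
    le_of_mul_le_mul_left (a := √T) (by rw [h8]; exact h7.trans_eq (by ring)) hs
  calc (T : ℝ) = √T ^ 2 := by rw [sq, h8]
    _ ≤ (4 * C * (sp h * n2 h)) ^ 2 := pow_le_pow_left₀ hs.le h9 2
    _ = _ := by ring

end Pool.Agent.Lib.MP_cb7904_an.Id
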