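import Pool.Agent.Lib.MP_cb7904_an.Id.Four

open Finset
open scoped BigOperators

namespace Pool.Agent.Lib.MP_cb7904_an.Id

variable {N : ℕ} [NeZero N] {m : ℕ}

lemma scale_sum (s : Finset (Fin m)) (a : Fin m → ZMod N) :
    ch (∑ i ∈ s, a i) = ∏ i ∈ s, ch (a i) := by
  induction s using Finset.induction_on with
  | empty => simp
  | insert i s hi ih => rw [sum_insert hi, prod_insert hi, AddChar.map_add_eq_mul, ih]

lemma scale_ex (d : Fin m → ZMod N) :
    𝔼 x : Fin m → ZMod N, ch (∑ i, d i * x i) = if d = 0 then 1 else 0 := by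
  split_ifs with h
  · simp [h]
  obtain ⟨i, hi⟩ := Function.ne_iff.mp h
  have h1 := H16.ex_shift (Pi.single i 1 : Fin m → ZMod N) fun x => ch (∑ i, d i * x i)
  simp only [Pi.add_apply, mul_add, sum_add_distrib, Pi.single_apply, mul_ite, mul_one, mul_zero,
    sum_ite_eq', mem_univ, if_true, AddChar.map_add_eq_mul, ← expect_mul] at h1
  by_contra h2
  exact hi (ch_eq_one.1 (mul_left_cancel₀ h2 (h1.trans (mul_one _).symm)))

lemma scale_pars {T : Type*} [Fintype T] {ρ : T → Fin m → ZMod N} (hρ : Function.Injective ρ)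
    (A : T → ℂ) : 𝔼 x : Fin m → ZMod N, ‖∑ t, A t * ch (∑ i, ρ t i * x i)‖ ^ 2 = ∑ t, ‖A t‖ ^ 2 := by
  classical
  apply Complex.ofReal_injective
  have h : ∀ (t s : T) (x : Fin m → ZMod N), A t * ch (∑ i, ρ t i * x i)
      * (starRingEnd ℂ (A s) * starRingEnd ℂ (ch (∑ i, ρ s i * x i)))
      = A t * starRingEnd ℂ (A s) * ch (∑ i, (ρ t - ρ s) i * x i) := fun t s x => by
    simp only [Pi.sub_apply, sub_mul, sum_sub_distrib]
    rw [sub_eq_add_neg, AddChar.map_add_eq_mul, AddChar.map_neg_eq_conj]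
    ring
  simp only [Complex.ofReal_expect, Complex.ofReal_sum, Complex.ofReal_pow, ← Complex.mul_conj',
    map_sum, map_mul, sum_mul_sum, h, expect_sum_comm, ← mul_expect, scale_ex, sub_eq_zero,
    hρ.eq_iff, mul_ite, mul_one, mul_zero, sum_ite_eq, mem_univ, if_true]

theorem scale_dsq {F : ZMod N → ℤ} {c : ZMod N → ℂ} (hF : ∀ x, (F x : ℂ) = ∑ r, c r * ch (r * x)) :
    𝔼 z : (Fin m → ZMod N) × (Fin m → ZMod N), H16.dsq F z.1 z.2
      = m.factorial * ∑ r : Fin m ↪ ZMod N, ∏ i, ‖c (r i)‖ ^ 2 := by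
  classical
  set D : (Fin m → ZMod N) → (Fin m → ZMod N) → ℂ := fun r x =>
    ∑ σ : Equiv.Perm (Fin m), ((Equiv.Perm.sign σ : ℤ) : ℂ) * ch (∑ i, r (σ.symm i) * x i) with hD
  have h0 : ∀ (r x : Fin m → ZMod N) (σ : Equiv.Perm (Fin m)),
      ch (∑ i, r (σ.symm i) * x i) = ∏ i, ch (r i * x (σ i)) := fun r x σ => by
    rw [← Equiv.sum_comp σ, scale_sum]; simp
  have h1 : ∀ x y, H16.dsq F x y = ‖∑ r : Fin m → ZMod N, (∏ i, c (r i)) * D r x
      * ch (∑ i, r i * y i)‖ ^ 2 := fun x y => by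
    rw [H16.dsq, ← sq_abs, ← Complex.norm_intCast, Int.cast_det, Matrix.det_apply']
    simp only [Matrix.map_apply, Matrix.of_apply, hF, prod_univ_sum, Fintype.piFinset_univ, hD,
      mul_sum, sum_mul, h0, scale_sum]
    rw [sum_comm]
    simp only [mul_add, AddChar.map_add_eq_mul, prod_mul_distrib]
    congr! 4
    ring
  have h2 : ∀ r : Fin m → ZMod N, 𝔼 x, ‖D r x‖ ^ 2
      = if Function.Injective r then (m.factorial : ℝ) else 0 := fun r => by
    split_ifs with h
    · rw [scale_pars (ρ := fun (σ : Equiv.Perm (Fin m)) i => r (σ.symm i)) fun σ τ h' =>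
        Equiv.symm_bijective.injective (Equiv.ext fun i => h (congrFun h' i))]
      have : ∀ σ : Equiv.Perm (Fin m), ‖((Equiv.Perm.sign σ : ℤ) : ℂ)‖ ^ 2 = 1 := fun σ => by
        rcases Int.units_eq_one_or (Equiv.Perm.sign σ) with h | h <;> simp [h]
      simp only [this, sum_const, card_univ, Fintype.card_perm, Fintype.card_fin, nsmul_one]
    obtain ⟨i, j, h3, h4⟩ := Function.not_injective_iff.mp h
    refine expect_eq_zero fun x _ => ?_
    have := Matrix.det_zero_of_column_eq (M := Matrix.of fun i j => ch (r j * x i)) h4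
      fun k => by simp [h3]
    simp only [Matrix.det_apply', Matrix.of_apply, ← h0] at this
    simp only [hD, this, norm_zero, ne_eq, OfNat.ofNat_ne_zero, not_false_eq_true, zero_pow]
  rw [← univ_product_univ, expect_product' _ _ fun x y => H16.dsq F x y]
  simp only [h1, scale_pars Function.injective_id (ρ := fun r => r), expect_sum_comm, norm_mul,
    mul_pow, ← mul_expect, h2, mul_ite, mul_zero, norm_prod, ← prod_pow]
  rw [← sum_filter, mul_sum, sum_subtype _ (p := fun r => Function.Injective r) (by simp)]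
  exact (Fintype.sum_equiv (Equiv.subtypeInjectiveEquivEmbedding _ _) _ _ fun r => mul_comm _ _)

lemma scale_one (F : ZMod N → ℤ) (h0 : 16 ≤ m)
    (h1 : 1 / 200 ≤ H16.del (fun x => (F x : ℚ)) (Fin (400 * m - 1))) :
    (m : ℝ) / 2 ≤ ∑ r, Real.log (1 + (m * (1200 * ‖ft (cz F) r‖)) ^ 2) := by
  obtain ⟨K, hK⟩ : ∃ K, 400 * m = K + 1 := ⟨400 * m - 1, by omega⟩
  have hK' : (K : ℝ) + 1 = 400 * m := by exact_mod_cast hK.symm
  have hm0 : (16 : ℝ) ≤ m := by exact_mod_cast h0
  have hf : (0 : ℝ) < m.factorial := by positivity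
  rw [show 400 * m - 1 = K by omega] at h1
  have h2 := H16.del_le (F := F) K m
  have h3 := H16.emb_sum_le m (b := fun r => (m * (1200 * ‖ft (cz F) r‖)) ^ 2) fun _ => sq_nonneg _
  rw [← Real.log_prod fun _ _ => by positivity, Real.le_log_iff_exp_le (by positivity)]
  set P := ∏ r, (1 + (m * (1200 * ‖ft (cz F) r‖)) ^ 2)
  simp only [← mul_assoc, mul_pow _ ‖_‖, prod_mul_distrib, prod_const, card_univ, Fintype.card_fin,
    ← mul_sum] at h3
  rw [scale_dsq (inversion (cz F)), hK'] at h2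
  set T := ∑ r : Fin m ↪ ZMod N, ∏ i, ‖ft (cz F) (r i)‖ ^ 2
  have hT : 0 ≤ T := by positivity
  have h4 : 4 ^ m * (400 * m * (2 * K) : ℝ) ^ m ≤ ((m * 1200) ^ 2) ^ m := by
    rw [← mul_pow]
    exact pow_le_pow_left₀ (by positivity) (by nlinarith) _
  have h5 : (m.factorial : ℝ) ≤ 400 * ((400 * m * (2 * K)) ^ m * T) := by
    refine le_of_mul_le_mul_left ?_ (show 0 < (m.factorial : ℝ) * m by positivity)
    refine le_trans ?_ (h2.trans (le_of_eq (by ring)))
    rw [sq, mul_right_comm]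
    exact mul_le_mul_of_nonneg_left (by nlinarith) (by positivity)
  have h6 : 4 ^ m ≤ 400 * P := by
    refine le_of_mul_le_mul_left ?_ hf
    nlinarith [mul_le_mul_of_nonneg_left h5 (show (0 : ℝ) ≤ 4 ^ m by positivity),
      mul_le_mul_of_nonneg_right h4 hT]
  have e1 := Real.exp_one_lt_d9
  have h7 : Real.exp (m / 2) ≤ 2 ^ m := by
    rw [div_eq_mul_inv, Real.exp_nat_mul]
    refine pow_le_pow_left₀ (Real.exp_pos _).le (abs_le_of_sq_le_sq' ?_ (by norm_num)).2 _
    rw [← Real.exp_nat_mul]; norm_num; linarith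
  have h8 : (2 : ℝ) ^ 16 ≤ 2 ^ m := pow_le_pow_right₀ (by norm_num) h0
  rw [show (4 : ℝ) ^ m = 2 ^ m * 2 ^ m by rw [← mul_pow]; norm_num] at h6
  nlinarith

open Classical in
theorem bad_count (F : ZMod N → ℤ) (J : ℕ) :
    (((range J).filter fun k => Bad F (k + 1)).card : ℝ) ≤ 57600 * nrm F := by
  have h1 := sum_le_sum fun r (_ : r ∈ univ) =>
    H16.log_sum (a := 1200 * ‖ft (cz F) r‖) (by positivity) (J + 2)
  rw [sum_comm, sum_range_succ', sum_range_succ'] at h1
  have h0 : ∀ k : ℕ, 0 ≤ ∑ r, Real.log (1 + (4 ^ k * (1200 * ‖ft (cz F) r‖)) ^ 2) / 4 ^ k :=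
    fun k => sum_nonneg fun r _ => div_nonneg
      (Real.log_nonneg (le_add_of_nonneg_right (sq_nonneg _))) (by positivity)
  have h2 := sum_le_sum fun k (hk : k ∈ (range J).filter fun k => Bad F (k + 1)) =>
    show (1 / 2 : ℝ) ≤
      ∑ r, Real.log (1 + (4 ^ (k + 1 + 1) * (1200 * ‖ft (cz F) r‖)) ^ 2) / 4 ^ (k + 1 + 1) by
    have := scale_one F (m := 4 ^ (k + 1 + 1)) (Nat.pow_le_pow_right (n := 4) (by norm_num)
      (by omega : 2 ≤ _)) (mem_filter.1 hk).2
    push_cast at this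
    rw [← sum_div, le_div_iff₀ (by positivity)]
    linarith
  have h3 := h2.trans (sum_le_sum_of_subset_of_nonneg (filter_subset _ _) fun k _ _ => h0 _)
  simp only [sum_const, nsmul_eq_mul, ← mul_sum] at h1 h3
  unfold nrm
  linarith [h0 0, h0 (0 + 1)]

end Pool.Agent.Lib.MP_cb7904_an.Id
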