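import Pool.Agent.Lib.MP_cb7904_an.Id.Good
import Pool.Agent.Lib.MP_cb7904_an.Id.Rough
import Pool.Agent.Lib.MP_cb7904_an.Id.Scale

open Finset
open scoped BigOperators

namespace Pool.Agent.Lib.MP_cb7904_an.Id

section

variable {N : ℕ} [NeZero N]

lemma main_step {f g g' : ZMod N → ℤ} {K : ℕ} {B ρ : ℝ} (hB0 : 0 ≤ B) (h1 : sp g ≤ 2 * K)
    (h2 : sp g' ≤ 2 * (4 * K)) (hB : ∀ x, f x = g' x → ((f x : ℝ) - g x) ^ 2 ≤ B)
    (h3 : K * dif f g ≤ ρ) (h4 : ((4 * K : ℕ) : ℝ) * dif f g' ≤ 1 / 15) :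
    sp (fun x => g' x - g x) * n2 (fun x => g' x - g x) ≤ 12 * (B * ρ) := by
  have hN : (0 : ℝ) < N := by exact_mod_cast NeZero.pos N
  have hs : (sp (fun x => g' x - g x) : ℝ) ≤ 10 * K := by
    have := sp_sub g g'
    exact_mod_cast (by omega : sp (fun x => g' x - g x) ≤ 10 * K)
  have hsup := sup_le fun x => g' x - g x
  obtain ⟨L, hL⟩ : ∃ L : ℝ, L = sp (fun x => g' x - g x) * n2 (fun x => g' x - g x) := ⟨_, rfl⟩
  have hL0 : 0 ≤ L := hL ▸ mul_nonneg (Nat.cast_nonneg _) (n2_nonneg _)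
  rw [← hL] at hsup
  have h5 : n2 (fun x => g' x - g x) ≤ B * dif f g + L * dif f g' := by
    unfold n2 dif
    rw [← mul_div_assoc, ← mul_div_assoc, ← add_div, card_filter, card_filter]
    refine div_le_div_of_nonneg_right ?_ hN.le
    push_cast
    rw [mul_sum, mul_sum, ← sum_add_distrib]
    refine sum_le_sum fun x _ => ?_
    have a1 := hsup x
    push_cast at a1
    by_cases a : f x = g' x
    · have a2 := hB x a
      by_cases b : f x = g x
      · simp [← a, ← b]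
      · rw [if_pos b, if_neg (not_not.2 a), ← a]
        linarith
    · rw [if_pos a]
      split_ifs <;> linarith
  have h6 : L ≤ 10 * K * (B * dif f g + L * dif f g') := by
    rw [hL]
    exact mul_le_mul hs (hL ▸ h5) (n2_nonneg _) (by positivity)
  push_cast at h4
  rw [← hL]
  nlinarith [mul_le_mul_of_nonneg_left h3 hB0, mul_le_mul_of_nonneg_left h4 hL0]

open Classical in
/-- The number of bad scales among the first ones. -/
noncomputable def nb (f : ZMod N → ℤ) (k : ℕ) : ℕ :=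
  ((range k).filter fun i => Bad f (i + 1)).card

lemma nb_bad {f : ZMod N → ℤ} {k : ℕ} (h : Bad f (k + 1)) : nb f (k + 1) = nb f k + 1 := by
  classical
  unfold nb
  rw [range_add_one, filter_insert, if_pos h, card_insert_of_notMem (by simp)]

lemma nb_good {f : ZMod N → ℤ} {k : ℕ} (h : ¬ Bad f (k + 1)) : nb f (k + 1) = nb f k := by
  classical
  unfold nb
  rw [range_add_one, filter_insert, if_neg h]

/-- The state after a good scale. -/
def StG (f : ZMod N → ℤ) (P F : ℝ) (k : ℕ) : Prop :=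
  ∃ (g : ZMod N → ℤ) (B : ℝ), sp g ≤ 2 * Kt k ∧ (∀ x, ((f x : ℝ) - g x) ^ 2 ≤ B) ∧
    Kt k * dif f g ≤ 1 / 15 ∧ B * (1 / 15) ≤ P * 20 ^ nb f k ∧ Cost N g ((nb f k + 1) * F)

/-- The state after a bad scale. -/
def StB (f : ZMod N → ℤ) (P F : ℝ) (k : ℕ) : Prop :=
  ∃ (g : ZMod N → ℤ) (B ρ : ℝ), sp g ≤ 2 * Kt k ∧ (∀ x, ((f x : ℝ) - g x) ^ 2 ≤ B) ∧
    Kt k * dif f g ≤ ρ ∧ 1 / 15 ≤ ρ ∧ 5 * (B * ρ) ≤ P * 20 ^ nb f k ∧ Cost N g (nb f k * F)

lemma Kt_succ (k : ℕ) : Kt (k + 1) = 4 * Kt k := by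
  unfold Kt
  rw [pow_succ 4 (k + 1)]
  ring

lemma main_bad {f : ZMod N → ℤ} {P F : ℝ} (hF : 0 ≤ F) {k : ℕ} (h : StG f P F k ∨ StB f P F k)
    (hb : Bad f (k + 1)) : StB f P F (k + 1) := by
  have e := nb_bad hb
  have e' := Kt_succ k
  rcases h with ⟨g, B, h1, h2, h3, h4, h5⟩ | ⟨g, B, ρ, h1, h2, h3, h4, h5, h6⟩
  · refine ⟨g, B, 4 * (1 / 15), by omega, h2, ?_, by norm_num, ?_, ?_⟩
    · rw [e']; push_cast; linarith
    · rw [e, pow_succ]; linarith
    · rw [e]; push_cast; exact h5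
  · have hB : 0 ≤ B := (sq_nonneg _).trans (h2 0)
    refine ⟨g, B, 4 * ρ, by omega, h2, ?_, by linarith, ?_, ?_⟩
    · rw [e']; push_cast; linarith
    · have : 0 ≤ B * ρ := mul_nonneg hB (by linarith)
      rw [e, pow_succ]; linarith
    · rw [e]; push_cast
      exact h6.mono dvd_rfl (by linarith)

lemma main_good {f : ZMod N → ℤ} {P F C : ℝ} (hC0 : 0 ≤ C)
    (hC : ∀ h : ZMod N → ℤ, Cost N h (C * (sp h * n2 h) ^ 2)) {k : ℕ}
    (hF : C * (12 * (P * 20 ^ nb f k)) ^ 2 ≤ F) (h : StG f P F k ∨ StB f P F k)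
    (hb : ¬ Bad f (k + 1)) : StG f P F (k + 1) := by
  have e := nb_good hb
  obtain ⟨g', a1, a2⟩ := good hb
  rw [Kt_succ] at a1 a2
  rcases h with ⟨g, B, h1, h2, h3, h4, h5⟩ | ⟨g, B, ρ, h1, h2, h3, h4, h5, h6⟩
  · have hL0 : (0 : ℝ) ≤ sp (fun x => g' x - g x) * n2 (fun x => g' x - g x) :=
      mul_nonneg (Nat.cast_nonneg _) (n2_nonneg _)
    have hsup := sup_le fun x => g' x - g x
    have b1 := main_step hL0 h1 a1 (fun x hx => by
      have := hsup x
      push_cast at this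
      rwa [hx]) h3 a2
    have b2 : g' = g := by
      funext x
      have c1 := hsup x
      have c2 : ((g' x - g x : ℤ) : ℝ) ^ 2 = 0 := le_antisymm (by linarith) (sq_nonneg _)
      have c3 : g' x - g x = 0 := by exact_mod_cast pow_eq_zero_iff two_ne_zero |>.1 c2
      omega
    subst b2
    exact ⟨g', B, by rw [Kt_succ]; exact a1, h2, by rw [Kt_succ]; exact a2, e ▸ h4, e ▸ h5⟩
  · have hB : 0 ≤ B := (sq_nonneg _).trans (h2 0)
    have hBρ : 0 ≤ B * ρ := mul_nonneg hB (by linarith)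
    have hL0 : (0 : ℝ) ≤ sp (fun x => g' x - g x) * n2 (fun x => g' x - g x) :=
      mul_nonneg (Nat.cast_nonneg _) (n2_nonneg _)
    have b1 := main_step hB h1 a1 (fun x _ => h2 x) h3 a2
    refine ⟨g', 54 * (B * ρ), by rw [Kt_succ]; exact a1, fun x => ?_, by rw [Kt_succ]; exact a2,
      by rw [e]; linarith, ?_⟩
    · have c1 := sup_le (fun x => g' x - g x) x
      have c2 := h2 x
      have c3 := mul_le_mul_of_nonneg_left h4 hB
      push_cast at c1
      nlinarith [sq_nonneg (((f x : ℝ) - g x) + (g' x - g x))]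
    · rw [e]
      refine ((h6.add (hC fun x => g' x - g x)).congr fun x => by ring).mono dvd_rfl ?_
      have c1 : ((sp (fun x => g' x - g x) : ℝ) * n2 (fun x => g' x - g x)) ^ 2 ≤
          (12 * (P * 20 ^ nb f k)) ^ 2 := pow_le_pow_left₀ hL0 (by linarith) 2
      have c2 := mul_le_mul_of_nonneg_left c1 hC0
      linarith

lemma main_cost {f : ZMod N → ℤ} {C : ℝ} (hC0 : 0 ≤ C)
    (hC : ∀ h : ZMod N → ℤ, Cost N h (C * (sp h * n2 h) ^ 2)) {n : ℕ} (hn : ∀ k, nb f k ≤ n) :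
    Cost N f ((n + 1) * (C * (12 * (8000 * nrm f ^ 2 * 20 ^ n)) ^ 2)) := by
  obtain ⟨P, hP⟩ : ∃ P : ℝ, P = 8000 * nrm f ^ 2 := ⟨_, rfl⟩
  have hP0 : 0 ≤ P := by rw [hP]; positivity
  rw [← hP]
  obtain ⟨F, hF⟩ : ∃ F : ℝ, F = C * (12 * (P * 20 ^ n)) ^ 2 := ⟨_, rfl⟩
  have hF0 : 0 ≤ F := by rw [hF]; positivity
  rw [← hF]
  have hN : (0 : ℝ) < N := by exact_mod_cast NeZero.pos N
  have hk : ∀ k, C * (12 * (P * 20 ^ nb f k)) ^ 2 ≤ F := fun k => by
    rw [hF]
    have : (20 : ℝ) ^ nb f k ≤ 20 ^ n := pow_le_pow_right₀ (by norm_num) (hn k)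
    gcongr
  have hall : ∀ k, StG f P F k ∨ StB f P F k := fun k => by
    induction k with
    | zero =>
      refine Or.inr ⟨fun _ => 0, nrm f ^ 2, 1600, by rw [sp_zero]; omega, fun x => ?_, ?_,
        by norm_num, ?_, ?_⟩
      · rw [Int.cast_zero, sub_zero, ← sq_abs]
        exact pow_le_pow_left₀ (abs_nonneg _) (abs_le_nrm f x) 2
      · have : dif f (fun _ => 0) ≤ 1 := by
          unfold dif
          rw [div_le_one hN]
          exact_mod_cast (card_filter_le _ _).trans (by rw [card_univ, ZMod.card])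
        have e : ((Kt 0 : ℕ) : ℝ) = 1600 := by norm_num [Kt]
        rw [e]
        linarith
      · rw [hP]
        simp only [nb, range_zero, filter_empty, card_empty, pow_zero]
        linarith
      · simpa [nb] using Cost.zero (N := N) N
    | succ k ih =>
      by_cases hb : Bad f (k + 1)
      · exact Or.inr (main_bad hF0 ih hb)
      · exact Or.inl (main_good hC0 hC (hk k) ih hb)
  obtain ⟨k, hk1, hk2⟩ : ∃ k, N ≤ k ∧ ¬ Bad f (k + 1) := by
    by_contra hc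
    push Not at hc
    have : ∀ j, j ≤ nb f (N + j) := fun j => by
      induction j with
      | zero => omega
      | succ j ih =>
        rw [← add_assoc, nb_bad (hc _ (by omega))]
        omega
    have h1 := this (n + 1)
    have h2 := hn (N + (n + 1))
    omega
  obtain ⟨g, B, -, -, h3, -, h5⟩ := main_good hC0 hC (hk k) (hall k) hk2
  have h6 : N ≤ Kt (k + 1) := by
    have : k + 1 + 1 < 4 ^ (k + 1 + 1) := Nat.lt_pow_self (by norm_num)
    unfold Kt
    omega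
  have h7 : (univ.filter fun x => f x ≠ g x).card = 0 := by
    unfold dif at h3
    rw [← mul_div_assoc, div_le_iff₀ hN] at h3
    have a1 : (N : ℝ) ≤ Kt (k + 1) := by exact_mod_cast h6
    by_contra hc
    have a2 : (1 : ℝ) ≤ (univ.filter fun x => f x ≠ g x).card := by
      exact_mod_cast Nat.one_le_iff_ne_zero.2 hc
    nlinarith
  refine (h5.congr fun x => ?_).mono dvd_rfl ?_
  · by_contra hx
    exact card_ne_zero_of_mem (mem_filter.2 ⟨mem_univ x, hx⟩) h7
  · have : (nb f (k + 1) : ℝ) ≤ n := by exact_mod_cast hn (k + 1)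
    exact mul_le_mul_of_nonneg_right (by linarith) hF0

end

lemma main_num {C M : ℝ} {n : ℕ} (hC : 0 ≤ C) (hM : 1 ≤ M) (hn : (n : ℝ) ≤ 57600 * M) :
    (n + 1) * (C * (12 * (8000 * M ^ 2 * 20 ^ n)) ^ 2) ≤ Real.exp ((C + 2553604) * M) := by
  have key : ∀ x y : ℝ, x ≤ y → x ≤ Real.exp y := fun x y h => by
    linarith [Real.add_one_le_exp y]
  have h1 : (n : ℝ) + 1 ≤ Real.exp (57600 * M) := by linarith [Real.add_one_le_exp (57600 * M)]
  have h2 : C ≤ Real.exp (C * M) := key _ _ (le_mul_of_one_le_right hC hM)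
  have h3 : (96000 : ℝ) ≤ Real.exp (96000 * M) := key _ _ (by linarith)
  have h4 : M ≤ Real.exp M := key _ _ le_rfl
  have h5 : (20 : ℝ) ^ n ≤ Real.exp (1152000 * M) := by
    have a1 : (20 : ℝ) ^ n ≤ Real.exp 20 ^ n := pow_le_pow_left₀ (by norm_num) (key _ _ le_rfl) n
    rw [← Real.exp_nat_mul] at a1
    exact a1.trans (Real.exp_le_exp.2 (by linarith))
  have h6 : 12 * (8000 * M ^ 2 * 20 ^ n) ≤
      Real.exp (96000 * M) * Real.exp M ^ 2 * Real.exp (1152000 * M) := by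
    have e : 12 * (8000 * M ^ 2 * 20 ^ n) = 96000 * M ^ 2 * 20 ^ n := by ring
    have hM0 : 0 ≤ M := by linarith
    rw [e]
    gcongr
  have e : Real.exp ((C + 2553604) * M) = Real.exp (57600 * M) * (Real.exp (C * M) *
      (Real.exp (96000 * M) * Real.exp M ^ 2 * Real.exp (1152000 * M)) ^ 2) := by
    simp only [sq, ← Real.exp_add]
    congr 1
    ring
  have hM0 : 0 ≤ M := by linarith
  rw [e]
  gcongr

theorem main : ∃ C : ℝ, ∀ (N : ℕ) [NeZero N] (f : ZMod N → ℤ),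
    Cost N f (Real.exp (C * nrm f)) := by
  obtain ⟨C, hC0, hC⟩ := struct
  refine ⟨C + 2553604, fun N _ f => ?_⟩
  by_cases hf : ∀ x, f x = 0
  · exact ((Cost.zero N).congr hf).mono dvd_rfl (Real.exp_pos _).le
  push Not at hf
  obtain ⟨x, hx⟩ := hf
  have hM : 1 ≤ nrm f := le_trans (by exact_mod_cast Int.one_le_abs hx) (abs_le_nrm f x)
  have hn : ∀ k, nb f k ≤ ⌊57600 * nrm f⌋₊ := fun k => Nat.le_floor (bad_count f k)
  exact (main_cost hC0 (hC N) hn).mono dvd_rfl (main_num hC0 hM (Nat.floor_le (by linarith)))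

end Pool.Agent.Lib.MP_cb7904_an.Id
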