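import Pool.Agent.Lib.MP_cb7904_an.Id.Defs

open Finset
open scoped BigOperators

namespace Pool.Agent.Lib.MP_cb7904_an.Id

variable {N : ℕ} [NeZero N]

omit [NeZero N] in
lemma sec_dvd {d : ℕ} (hd : d ∣ N) (a b : ℕ) :
    (d : ZMod N) ∣ (a : ZMod N) - b ↔ a ≡ b [MOD d] := by
  constructor
  · rintro ⟨t, ht⟩
    have h1 := congrArg (ZMod.castHom hd (ZMod d)) ht
    rw [map_sub, map_mul, map_natCast, map_natCast, map_natCast, ZMod.natCast_self, zero_mul,
      sub_eq_zero] at h1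
    exact (ZMod.natCast_eq_natCast_iff _ _ _).1 h1
  · intro h
    obtain ⟨t, ht⟩ := (Nat.modEq_iff_dvd.1 h.symm)
    refine ⟨(t : ZMod N), ?_⟩
    have h1 := congrArg (Int.cast : ℤ → ZMod N) ht
    push_cast at h1
    exact h1

lemma sec_modeq {d : ℕ} (hd : d ∣ N) {a b : ℕ}
    (h : ∀ p ∈ N.primeFactors, a ≡ b [MOD p ^ d.factorization p]) : a ≡ b [MOD d] := by
  have hN : N ≠ 0 := NeZero.ne N
  have hd0 : d ≠ 0 := ne_zero_of_dvd_ne_zero hN hd
  rw [Nat.modEq_iff_dvd, Int.natCast_dvd, Nat.dvd_iff_prime_pow_dvd_dvd]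
  intro p k hp hk
  rcases Nat.eq_zero_or_pos k with rfl | hk0
  · simp
  have hpN : p ∈ N.primeFactors :=
    Nat.mem_primeFactors.2 ⟨hp, ((dvd_pow_self p hk0.ne').trans hk).trans hd, hN⟩
  have h1 := h p hpN
  rw [Nat.modEq_iff_dvd, Int.natCast_dvd] at h1
  exact (pow_dvd_pow p ((hp.pow_dvd_iff_le_factorization hd0).1 hk)).trans h1

omit [NeZero N] in
lemma sec_crt (a : ℕ → ℕ) : ∃ c : ℕ, ∀ p ∈ N.primeFactors, c ≡ a p [MOD p ^ N.factorization p] := by
  refine ⟨_, (Nat.chineseRemainderOfFinset a (fun p => p ^ N.factorization p) N.primeFactors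
    (fun p hp => pow_ne_zero _ (Nat.prime_of_mem_primeFactors hp).ne_zero) ?_).2⟩
  intro p hp q hq hpq
  exact Nat.coprime_pow_primes _ _ (Nat.prime_of_mem_primeFactors hp)
    (Nat.prime_of_mem_primeFactors hq) hpq

lemma sec_le {d : ℕ} (hd : d ∣ N) (p : ℕ) : p ^ d.factorization p ∣ p ^ N.factorization p := by
  have hN : N ≠ 0 := NeZero.ne N
  exact pow_dvd_pow p ((Nat.factorization_le_iff_dvd (ne_zero_of_dvd_ne_zero hN hd) hN).2 hd p)

theorem exists_sec : ∃ s : ℕ → ZMod N → ZMod N,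
    (∀ e, e ∣ N → ∀ y, (e : ZMod N) ∣ s e y - y) ∧
    (∀ e, e ∣ N → ∀ y y', (e : ZMod N) ∣ y - y' → s e y = s e y') ∧
    ∀ e d, e ∣ N → d ∣ N → ∀ y, (d : ZMod N) ∣ s e y - s (Nat.gcd e d) y := by
  have hN : N ≠ 0 := NeZero.ne N
  choose c hc using fun (e : ℕ) (y : ZMod N) =>
    sec_crt (N := N) (fun p => y.val % p ^ e.factorization p)
  refine ⟨fun e y => (c e y : ZMod N), fun e he y => ?_, fun e he y y' h => ?_,
    fun e d he hd y => ?_⟩
  · have h1 : c e y ≡ y.val [MOD e] := sec_modeq he fun p hp =>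
      ((hc e y p hp).of_dvd (sec_le he p)).trans (Nat.mod_modEq _ _)
    have h2 := (sec_dvd he _ _).2 h1
    rwa [ZMod.natCast_zmod_val] at h2
  · have h1 : y.val ≡ y'.val [MOD e] := by
      rw [← sec_dvd he, ZMod.natCast_zmod_val, ZMod.natCast_zmod_val]
      exact h
    refine (ZMod.natCast_eq_natCast_iff _ _ _).2 (sec_modeq dvd_rfl fun p hp => ?_)
    have h2 : y.val % p ^ e.factorization p = y'.val % p ^ e.factorization p :=
      h1.of_dvd (Nat.ordProj_dvd e p)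
    have h3 := hc e y p hp
    rw [h2] at h3
    exact h3.trans (hc e y' p hp).symm
  · refine (sec_dvd hd _ _).2 (sec_modeq hd fun p hp => ?_)
    have he0 : e ≠ 0 := ne_zero_of_dvd_ne_zero hN he
    have hd0 : d ≠ 0 := ne_zero_of_dvd_ne_zero hN hd
    have h1 := (hc e y p hp).of_dvd (sec_le hd p)
    have h2 := (hc (Nat.gcd e d) y p hp).of_dvd (sec_le hd p)
    refine h1.trans (Nat.ModEq.trans ?_ h2.symm)
    rw [Nat.factorization_gcd he0 hd0, Finsupp.inf_apply]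
    rcases le_total (e.factorization p) (d.factorization p) with h | h
    · rw [min_eq_left h]
    · rw [min_eq_right h]
      exact ((Nat.mod_modEq _ _).of_dvd (pow_dvd_pow p h)).trans (Nat.mod_modEq _ _).symm

omit [NeZero N] in
theorem moeb (hN : N ≠ 0) (F : ℕ → ℂ) {d0 : ℕ} (hd : d0 ∣ N) (A : Finset ℕ) (hA : ∀ d ∈ A, d ∣ N)
    (hA0 : ∀ d, d ∣ d0 → d ∈ A) (hF : ∀ e, e ∣ N → F e = F (Nat.gcd e d0)) :
    ∑ d ∈ A, ∑ x ∈ d.divisorsAntidiagonal, (ArithmeticFunction.moebius x.1 : ℂ) * F x.2 =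
      F d0 := by
  have hd0 : d0 ≠ 0 := ne_zero_of_dvd_ne_zero hN hd
  let D : ℕ → ℂ := fun d => ∑ x ∈ d.divisorsAntidiagonal,
    (ArithmeticFunction.moebius x.1 : ℂ) * F (Nat.gcd x.2 d0)
  have h1 : ∀ n > 0, ∑ i ∈ n.divisors, D i = F (Nat.gcd n d0) :=
    (ArithmeticFunction.sum_eq_iff_sum_mul_moebius_eq (f := D)
      (g := fun n => F (Nat.gcd n d0))).2 fun n _ => rfl
  have h2 : ∀ n > 0, ∑ i ∈ n.divisors, (if i ∣ d0 then D i else 0) = F (Nat.gcd n d0) := by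
    intro n hn
    have e1 : n.divisors.filter (fun i => i ∣ d0) = (Nat.gcd n d0).divisors := by
      ext i
      simp only [mem_filter, Nat.mem_divisors, Nat.dvd_gcd_iff]
      exact ⟨fun h => ⟨⟨h.1.1, h.2⟩, Nat.gcd_ne_zero_right hd0⟩,
        fun h => ⟨⟨h.1.1, hn.ne'⟩, h.1.2⟩⟩
    rw [← sum_filter, e1, h1 _ (Nat.gcd_pos_of_pos_left _ hn), Nat.gcd_assoc, Nat.gcd_self]
  have h3 := (ArithmeticFunction.sum_eq_iff_sum_mul_moebius_eq
    (f := fun i => if i ∣ d0 then D i else 0) (g := fun n => F (Nat.gcd n d0))).1 h2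
  have h4 : ∀ d ∈ A, ∑ x ∈ d.divisorsAntidiagonal, (ArithmeticFunction.moebius x.1 : ℂ) * F x.2 =
      if d ∣ d0 then D d else 0 := by
    intro d hdA
    rw [← h3 d (Nat.pos_of_ne_zero (ne_zero_of_dvd_ne_zero hN (hA d hdA)))]
    refine sum_congr rfl fun x hx => ?_
    rw [hF x.2 ((Nat.dvd_of_mem_divisors (Nat.snd_mem_divisors_of_mem_antidiagonal hx)).trans
      (hA d hdA))]
  have e2 : A.filter (fun i => i ∣ d0) = d0.divisors := by
    ext i
    simp only [mem_filter, Nat.mem_divisors]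
    exact ⟨fun h => ⟨h.2, hd0⟩, fun h => ⟨hA0 i h.1, h.1⟩⟩
  rw [sum_congr rfl h4, ← sum_filter, e2, h1 _ (Nat.pos_of_ne_zero hd0), Nat.gcd_self]

end Pool.Agent.Lib.MP_cb7904_an.Id
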