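import Pool.Agent.Lib.MP_cb7904_an.Id.Defs
import Pool.Agent.Lib.MP_458f0b_nt.Mertens

open Finset
open scoped BigOperators

namespace Pool.Agent.Lib.MP_cb7904_an.Id

lemma theta_Q {y d : ℕ} (hy : 3 ≤ y) (h : ∀ p : ℕ, p.Prime → p ∣ d → p ≤ y) :
    ∏ p ∈ d.primeFactors, (1 - (p : ℝ)⁻¹)⁻¹ ≤ 2 * Real.exp 5 * Real.log y := by
  refine le_trans ?_ (Pool.Agent.Lib.MP_458f0b_nt.prod_primesLE_le hy)
  have one : ∀ p : ℕ, p.Prime → 1 ≤ (1 - (p : ℝ)⁻¹)⁻¹ := fun p hp => by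
    have h1 : (1 : ℝ) < p := by exact_mod_cast hp.one_lt
    have h2 : (p : ℝ)⁻¹ < 1 := inv_lt_one_of_one_lt₀ h1
    have h3 : (0 : ℝ) ≤ (p : ℝ)⁻¹ := by positivity
    exact (one_le_inv₀ (by linarith)).2 (by linarith)
  refine Finset.prod_le_prod_of_subset_of_one_le (fun p hp => ?_)
    (fun p hp => zero_le_one.trans (one p (Nat.prime_of_mem_primeFactors hp)))
    fun p hp _ => one p (Nat.mem_primesLE.1 hp).2
  exact Nat.mem_primesLE.2 ⟨h p (Nat.prime_of_mem_primeFactors hp) (Nat.dvd_of_mem_primeFactors hp),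
    Nat.prime_of_mem_primeFactors hp⟩

lemma theta_sigma {d n : ℕ} (hd : 0 < d) (hn : n ∣ d) :
    ∑ e ∈ n.divisors, (e : ℝ) ≤ n * ∏ p ∈ d.primeFactors, (1 - (p : ℝ)⁻¹)⁻¹ := by
  have h := Pool.Agent.Lib.MP_458f0b_nt.euler_ge one_pos d.primeFactors
    (fun p hp => Nat.prime_of_mem_primeFactors hp) n.divisors fun m hm p hp hpm =>
      Nat.mem_primeFactors.2 ⟨hp, hpm.trans ((Nat.dvd_of_mem_divisors hm).trans hn), hd.ne'⟩
  simp only [Real.rpow_neg_one] at h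
  refine le_trans (le_of_eq ?_) (mul_le_mul_of_nonneg_left h (Nat.cast_nonneg n))
  rw [← Nat.sum_div_divisors n fun e => (e : ℝ), Finset.mul_sum]
  refine Finset.sum_congr rfl fun e he => ?_
  have h0 : (e : ℝ) ≠ 0 := by exact_mod_cast (Nat.pos_of_mem_divisors he).ne'
  rw [Nat.cast_div (Nat.dvd_of_mem_divisors he) h0, div_eq_mul_inv]

theorem W_le {y d : ℕ} (hy : 3 ≤ y) (hd : 0 < d) (h : ∀ p : ℕ, p.Prime → p ∣ d → p ≤ y) :
    ∑ d' ∈ d.divisors, ∑ e ∈ d'.divisors, (e : ℝ) ≤ Th y * Nat.totient d := by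
  have hQ := theta_Q hy h
  set Q := ∏ p ∈ d.primeFactors, (1 - (p : ℝ)⁻¹)⁻¹ with hQd
  have pos : ∀ p ∈ d.primeFactors, 0 < 1 - (p : ℝ)⁻¹ := fun p hp => by
    have h1 : (1 : ℝ) < p := by exact_mod_cast (Nat.prime_of_mem_primeFactors hp).one_lt
    linarith [inv_lt_one_of_one_lt₀ h1]
  have Q0 : 0 ≤ Q := Finset.prod_nonneg fun p hp => (inv_pos.2 (pos p hp)).le
  have e1 : (d : ℝ) = Nat.totient d * Q := by
    have h1 : (Nat.totient d : ℝ) = d * ∏ p ∈ d.primeFactors, (1 - (p : ℝ)⁻¹) := by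
      have := congrArg (fun q : ℚ => (q : ℝ)) (Nat.totient_eq_mul_prod_factors d)
      simpa using this
    rw [h1, hQd, mul_assoc, ← Finset.prod_mul_distrib,
      Finset.prod_congr rfl fun p hp => mul_inv_cancel₀ (pos p hp).ne', Finset.prod_const_one,
      mul_one]
  calc ∑ d' ∈ d.divisors, ∑ e ∈ d'.divisors, (e : ℝ) ≤ ∑ d' ∈ d.divisors, (d' : ℝ) * Q :=
        Finset.sum_le_sum fun d' hd' => theta_sigma hd (Nat.dvd_of_mem_divisors hd')
    _ ≤ d * Q * Q := by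
        rw [← Finset.sum_mul]
        exact mul_le_mul_of_nonneg_right (theta_sigma hd dvd_rfl) Q0
    _ = Q ^ 3 * Nat.totient d := by
        conv_lhs => rw [e1]
        ring
    _ ≤ _ := mul_le_mul_of_nonneg_right (pow_le_pow_left₀ Q0 hQ 3) (Nat.cast_nonneg _)

theorem Th_le : ∃ C : ℝ, 0 ≤ C ∧ ∀ T : ℕ, 1 ≤ T → Th (4 * T ^ 2) ≤ C * √T := by
  refine ⟨(2 * Real.exp 5 * 12) ^ 3 * √2, by positivity, fun T hT => ?_⟩
  have h0 : (1 : ℝ) ≤ T := by exact_mod_cast hT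
  have h1 : Real.log ((4 * T ^ 2 : ℕ) : ℝ) = 2 * Real.log (2 * T) := by
    rw [show ((4 * T ^ 2 : ℕ) : ℝ) = (2 * T) ^ 2 by push_cast; ring, Real.log_pow]
    norm_num
  have h2 := Real.log_le_rpow_div (x := 2 * (T : ℝ)) (ε := 1 / 6) (by positivity) (by norm_num)
  have h3 : 0 ≤ Real.log (2 * (T : ℝ)) := Real.log_nonneg (by linarith)
  have h4 : ((2 * (T : ℝ)) ^ (1 / 6 : ℝ)) ^ 3 = √2 * √T := by
    rw [← Real.sqrt_mul (by norm_num), Real.sqrt_eq_rpow, ← Real.rpow_natCast,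
      ← Real.rpow_mul (by positivity)]
    norm_num
  unfold Th
  rw [h1, mul_assoc _ √2, ← h4, ← mul_pow]
  refine pow_le_pow_left₀ (by positivity) ?_ 3
  rw [mul_assoc _ 12]
  exact mul_le_mul_of_nonneg_left (by linarith) (by positivity)

end Pool.Agent.Lib.MP_cb7904_an.Id
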