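import Pool.Agent.Lib.MP_cb7904_an.Id.CostL
import Pool.Agent.Lib.MP_cb7904_an.Id.Gal
import Pool.Agent.Lib.MP_cb7904_an.Id.Sec
import Pool.Agent.Lib.MP_cb7904_an.Id.Theta

open Finset
open scoped BigOperators

namespace Pool.Agent.Lib.MP_cb7904_an.Id

variable {N : ℕ} [NeZero N]

lemma smooth_iff {e k : ℕ} (he : e ∣ N) (hk : k < e) (y : ZMod N) :
    (e : ZMod N) ∣ y - k ↔ k = y.val % e := by
  constructor
  · rintro ⟨c, hc⟩
    have h1 := congrArg (ZMod.castHom he (ZMod e)) hc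
    rw [← ZMod.natCast_zmod_val y, map_sub, map_mul, map_natCast, map_natCast, map_natCast,
      ZMod.natCast_self, zero_mul, sub_eq_zero, ZMod.natCast_eq_natCast_iff'] at h1
    rw [h1, Nat.mod_eq_of_lt hk]
  · rintro rfl
    refine ⟨(y.val / e : ℕ), ?_⟩
    rw [sub_eq_iff_eq_add, ← Nat.cast_mul, ← Nat.cast_add, Nat.div_add_mod, ZMod.natCast_zmod_val]

lemma smooth_E {e : ℕ} (he : e ∣ N) (u : ZMod N → ℤ)
    (hu : ∀ y y', (e : ZMod N) ∣ y - y' → u y = u y') (t x : ZMod N) :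
    u (x - t) = ∑ k ∈ range e, u (k : ZMod N) * cs e (t + (k : ZMod N)) x := by
  have e0 : 0 < e := Nat.pos_of_dvd_of_pos he (NeZero.pos N)
  have h0 := Nat.mod_lt (x - t).val e0
  have h1 := (smooth_iff he h0 (x - t)).2 rfl
  rw [sum_eq_single_of_mem ((x - t).val % e) (mem_range.2 h0)]
  · rw [cs, ← sub_sub, if_pos h1, mul_one]
    exact hu _ _ h1
  · intro k hk h2
    rw [cs, ← sub_sub, if_neg (mt (smooth_iff he (mem_range.1 hk) _).1 h2), mul_zero]

lemma smooth_ch {d : ℕ} {r a b : ZMod N} (h : (d : ZMod N) * r = 0)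
    (h2 : (d : ZMod N) ∣ a - b) (t : ZMod N) : ch (r * (t + a)) = ch (r * (t + b)) := by
  obtain ⟨c, hc⟩ := h2
  congr 1
  linear_combination r * hc + c * h

lemma smooth_biUnion {D : Finset ℕ} (f : ℕ → Finset ℕ) {g : ℕ → ℝ} (hg : ∀ d, 0 ≤ g d) :
    ∑ d ∈ D.biUnion f, g d ≤ ∑ a ∈ D, ∑ d ∈ f a, g d := by
  induction D using Finset.induction_on with
  | empty => simp
  | insert a D ha ih =>
    rw [biUnion_insert, sum_insert ha]
    have h1 := sum_union_inter (s₁ := f a) (s₂ := D.biUnion f) (f := g)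
    have h2 : 0 ≤ ∑ d ∈ f a ∩ D.biUnion f, g d := sum_nonneg fun d _ => hg d
    linarith

theorem smooth {m y : ℕ} (hm : m ∣ N) (hy : 3 ≤ y) (hp : ∀ p : ℕ, p.Prime → p ∣ m → p ≤ y)
    {h : ZMod N → ℤ} (hh : Per m h) : Cost m h (Th y * (sp h * n2 h)) := by
  obtain ⟨s, s1, s2, s3⟩ := exists_sec (N := N)
  have N0 : (0 : ℝ) < N := by exact_mod_cast NeZero.pos N
  set D := (spec (cz h)).image addOrderOf with hD
  set A := D.biUnion Nat.divisors with hA
  have d1 : ∀ r ∈ spec (cz h), addOrderOf r ∣ m := fun r hr =>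
    addOrderOf_dvd_of_nsmul_eq_zero (by
      rw [nsmul_eq_mul]
      exact ft_per (fun x t => congrArg Int.cast (hh x t)) (mem_spec.1 hr))
  have d2 : ∀ d ∈ D, d ∣ m := fun d hd => by
    obtain ⟨r, hr, rfl⟩ := mem_image.1 hd
    exact d1 r hr
  have d3 : ∀ d ∈ A, d ∣ m := fun d hd => by
    obtain ⟨a, ha, h1⟩ := mem_biUnion.1 hd
    exact (Nat.dvd_of_mem_divisors h1).trans (d2 a ha)
  have d4 : ∀ d ∈ A, ∀ z ∈ d.divisorsAntidiagonal, z.2 ∣ m := fun d hd z hz =>
    (Nat.dvd_of_mem_divisors (Nat.snd_mem_divisors_of_mem_antidiagonal hz)).trans (d3 d hd)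
  have i1 : ∀ t x, h x = ∑ d ∈ A, ∑ z ∈ d.divisorsAntidiagonal,
      ArithmeticFunction.moebius z.1 * h (t + s z.2 (x - t)) := fun t x => by
    have h1 : ∀ r ∈ spec (cz h), ∑ d ∈ A, ∑ z ∈ d.divisorsAntidiagonal,
        (ArithmeticFunction.moebius z.1 : ℂ) * ch (r * (t + s z.2 (x - t))) = ch (r * x) := by
      intro r hr
      have r1 := (d1 r hr).trans hm
      have r2 : (addOrderOf r : ZMod N) * r = 0 := by
        rw [← nsmul_eq_mul, addOrderOf_nsmul_eq_zero]
      rw [moeb (NeZero.ne N) (fun e => ch (r * (t + s e (x - t)))) r1 A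
        (fun d hd => (d3 d hd).trans hm)
        (fun d hd => mem_biUnion.2 ⟨_, mem_image_of_mem _ hr,
          Nat.mem_divisors.2 ⟨hd, (addOrderOf_pos r).ne'⟩⟩)
        (fun e he => smooth_ch r2 (s3 e _ he r1 _) t), smooth_ch r2 (s1 _ r1 _) t, add_sub_cancel]
    have h2 : ∀ x, (h x : ℂ) = ∑ r ∈ spec (cz h), ft (cz h) r * ch (r * x) :=
      inversion_spec (cz h)
    apply Int.cast_injective (α := ℂ)
    push_cast
    rw [h2 x, ← sum_congr rfl fun r hr => congrArg (ft (cz h) r * ·) (h1 r hr)]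
    simp only [h2, mul_sum]
    rw [sum_comm]
    refine sum_congr rfl fun d _ => ?_
    rw [sum_comm]
    exact sum_congr rfl fun z _ => sum_congr rfl fun r _ => mul_left_comm _ _ _
  have c1 : ∀ t, Cost m h (∑ d ∈ A, ∑ z ∈ d.divisorsAntidiagonal, ∑ k ∈ range z.2,
      (h (t + s z.2 k) : ℝ) ^ 2) := fun t => by
    refine Cost.congr (h := fun x => ∑ d ∈ A, ∑ z ∈ d.divisorsAntidiagonal, ∑ k ∈ range z.2,
      ArithmeticFunction.moebius z.1 * h (t + s z.2 k) * cs z.2 (t + (k : ZMod N)) x) ?_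
      fun x => ?_
    · refine Cost.sum A _ _ fun d hd => ?_
      refine Cost.sum _ _ _ fun z hz => ?_
      refine Cost.sum _ _ _ fun k _ => ?_
      refine (Cost.single (d4 d hd z hz) _ _).mono dvd_rfl ?_
      have h1 : |ArithmeticFunction.moebius z.1 * h (t + s z.2 k)| ≤ h (t + s z.2 k) ^ 2 := by
        rw [abs_mul, ← sq_abs]
        have := ArithmeticFunction.abs_moebius_le_one (n := z.1)
        have := Int.le_self_sq |h (t + s z.2 k)|
        have := abs_nonneg (h (t + s z.2 k))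
        nlinarith
      exact_mod_cast h1
    · rw [i1 t x]
      refine sum_congr rfl fun d hd => sum_congr rfl fun z hz => ?_
      have h1 := (d4 d hd z hz).trans hm
      rw [smooth_E h1 (fun w => h (t + s z.2 w)) (fun w w' hw => by rw [s2 _ h1 _ _ hw]) t x,
        mul_sum]
      exact sum_congr rfl fun k _ => (mul_assoc _ _ _).symm
  have c2 : ∀ w, ∑ t, (h (t + w) : ℝ) ^ 2 = N * n2 h := fun w => by
    rw [n2, mul_div_cancel₀ _ N0.ne']
    exact Fintype.sum_equiv (Equiv.addRight w) _ _ fun _ => rfl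
  have c3 : ∑ d ∈ A, ∑ e ∈ d.divisors, (e : ℝ) ≤ Th y * sp h := by
    refine (smooth_biUnion _ fun d => by positivity).trans ((sum_le_sum fun d hd =>
      W_le hy (Nat.pos_of_dvd_of_pos ((d2 d hd).trans hm) (NeZero.pos N))
        fun p h1 h2 => hp p h1 (h2.trans (d2 d hd))).trans ?_)
    rw [← mul_sum]
    refine mul_le_mul_of_nonneg_left ?_ (by unfold Th; positivity)
    have h1 := tot_le fun x => (h x : ℚ)
    rw [← cz_eq_cq] at h1
    exact_mod_cast h1
  obtain ⟨t, -, ht⟩ := exists_le_of_sum_le (s := (univ : Finset (ZMod N))) univ_nonempty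
    (f := fun t => ∑ d ∈ A, ∑ z ∈ d.divisorsAntidiagonal, ∑ k ∈ range z.2,
      (h (t + s z.2 k) : ℝ) ^ 2) (g := fun _ => Th y * (sp h * n2 h)) (by
      have h1 : ∀ d : ℕ, ∑ t, ∑ z ∈ d.divisorsAntidiagonal, ∑ k ∈ range z.2,
          (h (t + s z.2 k) : ℝ) ^ 2 = (∑ e ∈ d.divisors, (e : ℝ)) * (N * n2 h) := fun d => by
        rw [sum_comm, ← Nat.sum_divisorsAntidiagonal' (fun _ e => (e : ℝ)), sum_mul]
        refine sum_congr rfl fun z _ => ?_
        rw [sum_comm]
        simp [c2]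
      rw [sum_comm]
      simp only [h1, ← sum_mul, sum_const, card_univ, ZMod.card, nsmul_eq_mul]
      have h2 := mul_le_mul_of_nonneg_right c3 (mul_nonneg N0.le (n2_nonneg h))
      linarith)
  exact (c1 t).mono dvd_rfl ht

end Pool.Agent.Lib.MP_cb7904_an.Id
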